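import Mathlib
import Pool.Agent.Lib.MP_8f66f0_al_Dennis.Defs
import Pool.Agent.Lib.MP_8f66f0_al_Dennis.DetDefs

/-! Matrices over integral group rings under representations; trace and determinant. -/

set_option autoImplicit false
set_option linter.unusedSectionVars false

namespace Pool.Agent.Lib.MP_8f66f0_al_FinQ

open Pool.Agent.Lib.MP_8f66f0_al_Dennis

/-- A conjugacy class is detected if it has an integer valued class cocycle which does not
vanish on the class itself. -/
def Detected {G : Type*} [Group G] (c : G) : Prop :=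
  ∃ δ : G → G → ℤ, IsClassCocycle c δ ∧ δ c c ≠ 0

section defs

variable {Γ E : Type*} [Group Γ] [CommRing E] {ι κ : Type*} [Fintype ι] [DecidableEq ι]
  [Fintype κ] [DecidableEq κ]

/-- The ring homomorphism from the integral group ring given by a representation. -/
noncomputable def mapHom (σ : Γ →* Matrix κ κ E) : MonoidAlgebra ℤ Γ →ₐ[ℤ] Matrix κ κ E :=
  MonoidAlgebra.lift ℤ (Matrix κ κ E) Γ σ

/-- The image of a matrix over the integral group ring under a representation. -/
noncomputable def mapRep (σ : Γ →* Matrix κ κ E) (A : Matrix ι ι (MonoidAlgebra ℤ Γ)) :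
    Matrix (ι × κ) (ι × κ) E :=
  Matrix.of fun x y => mapHom σ (A x.1 y.1) x.2 y.2

lemma mapHom_apply (σ : Γ →* Matrix κ κ E) (x : MonoidAlgebra ℤ Γ) (a b : κ) :
    mapHom σ x a b = x.coeff.sum fun g m => (m : E) * σ g a b := by
  rw [mapHom, MonoidAlgebra.lift_apply, Finsupp.sum, Matrix.sum_apply, Finsupp.sum]
  refine Finset.sum_congr rfl fun g _ => ?_
  rw [Matrix.smul_apply, zsmul_eq_mul]

lemma mapRep_apply (σ : Γ →* Matrix κ κ E) (A : Matrix ι ι (MonoidAlgebra ℤ Γ)) (x y : ι × κ) :
    mapRep σ A x y = mapHom σ (A x.1 y.1) x.2 y.2 := rfl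

lemma repMatrix_eq_mapRep {n k : ℕ} (ρ : Γ →* Matrix.GeneralLinearGroup (Fin k) E)
    (A : Matrix (Fin n) (Fin n) (MonoidAlgebra ℤ Γ)) :
    repMatrix ρ A = mapRep ((Units.coeHom _).comp ρ) A := by
  ext x y
  rw [mapRep_apply, mapHom_apply]
  rfl

lemma mapRep_mul (σ : Γ →* Matrix κ κ E) (A B : Matrix ι ι (MonoidAlgebra ℤ Γ)) :
    mapRep σ (A * B) = mapRep σ A * mapRep σ B := by
  ext x y
  rw [mapRep_apply, Matrix.mul_apply, Matrix.mul_apply, map_sum, Matrix.sum_apply,
    Fintype.sum_prod_type]
  refine Finset.sum_congr rfl fun l _ => ?_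
  rw [map_mul, Matrix.mul_apply]
  rfl

lemma mapRep_one (σ : Γ →* Matrix κ κ E) :
    mapRep σ (1 : Matrix ι ι (MonoidAlgebra ℤ Γ)) = 1 := by
  ext x y
  rw [mapRep_apply, Matrix.one_apply, Matrix.one_apply]
  by_cases h : x.1 = y.1
  · rw [if_pos h, map_one, Matrix.one_apply]
    by_cases h' : x.2 = y.2
    · rw [if_pos h', if_pos (Prod.ext h h')]
    · rw [if_neg h', if_neg (fun e => h' (congrArg Prod.snd e))]
  · rw [if_neg h, map_zero, if_neg (fun e => h (congrArg Prod.fst e))]
    rfl

lemma mapRep_pow (σ : Γ →* Matrix κ κ E) (A : Matrix ι ι (MonoidAlgebra ℤ Γ)) (m : ℕ) :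
    mapRep σ (A ^ m) = mapRep σ A ^ m := by
  induction m with
  | zero => rw [pow_zero, pow_zero, mapRep_one]
  | succ m ih => rw [pow_succ, pow_succ, mapRep_mul, ih]

lemma mapRep_map {E' : Type*} [CommRing E'] (s : E →+* E') (σ : Γ →* Matrix κ κ E)
    (A : Matrix ι ι (MonoidAlgebra ℤ Γ)) :
    (mapRep σ A).map s = mapRep ((s.mapMatrix : Matrix κ κ E →+* Matrix κ κ E').toMonoidHom.comp σ)
      A := by
  ext x y
  rw [Matrix.map_apply, mapRep_apply, mapRep_apply, mapHom_apply, mapHom_apply, Finsupp.sum,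
    map_sum, Finsupp.sum]
  refine Finset.sum_congr rfl fun g _ => ?_
  rw [map_mul, map_intCast]
  rfl

lemma trace_mapRep (σ : Γ →* Matrix κ κ E) (A : Matrix ι ι (MonoidAlgebra ℤ Γ)) :
    (mapRep σ A).trace = A.trace.coeff.sum fun g m => (m : E) * (σ g).trace := by
  have h1 : (mapRep σ A).trace = (mapHom σ A.trace).trace := by
    have h2 : mapHom σ A.trace = ∑ i, mapHom σ (A i i) := by
      rw [Matrix.trace, map_sum]
      rfl
    rw [h2, Matrix.trace_sum, Matrix.trace, Fintype.sum_prod_type]
    rfl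
  rw [h1, Matrix.trace]
  have h2 : ∀ a : κ, (mapHom σ A.trace).diag a =
      ∑ g ∈ A.trace.coeff.support, ((A.trace.coeff g : ℤ) : E) * σ g a a := by
    intro a
    rw [Matrix.diag_apply, mapHom_apply, Finsupp.sum]
  rw [Finset.sum_congr rfl fun a _ => h2 a, Finset.sum_comm, Finsupp.sum]
  refine Finset.sum_congr rfl fun g _ => ?_
  change _ = _ * ∑ i, σ g i i
  rw [Finset.mul_sum]

lemma isUnit_det_mapRep (σ : Γ →* Matrix κ κ E) {A B : Matrix ι ι (MonoidAlgebra ℤ Γ)}
    (hAB : A * B = 1) : IsUnit (mapRep σ A).det := by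
  have h : mapRep σ A * mapRep σ B = 1 := by rw [← mapRep_mul, hAB, mapRep_one]
  have h2 := congrArg Matrix.det h
  rw [Matrix.det_mul, Matrix.det_one] at h2
  exact IsUnit.of_mul_eq_one _ h2

end defs

section roots

open Polynomial

variable {K : Type*} [Field K] [IsAlgClosed K] {n : Type*} [Fintype n] [DecidableEq n]

lemma card_roots_charpoly (X : Matrix n n K) : X.charpoly.roots.card = Fintype.card n := by
  rw [← X.charpoly_natDegree_eq_dim]
  exact splits_iff_card_roots.mp (IsAlgClosed.splits _)

lemma neg_pow_mul_prod (s : Multiset K) (f : K → K) :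
    (-1) ^ s.card * (s.map f).prod = (s.map fun y => -(f y)).prod := by
  induction s using Multiset.induction_on with
  | empty => simp
  | cons y s ih =>
    rw [Multiset.card_cons, Multiset.map_cons, Multiset.prod_cons, Multiset.map_cons,
      Multiset.prod_cons, ← ih]
    ring

lemma eval_charpoly_eq (X : Matrix n n K) (z : K) :
    (Matrix.scalar n z - X).det = (X.charpoly.roots.map fun y => z - y).prod := by
  rw [← Matrix.eval_charpoly, (IsAlgClosed.splits X.charpoly).eval_eq_prod_roots_of_monic
    X.charpoly_monic]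

lemma det_sub_scalar (X : Matrix n n K) (z : K) :
    (X - Matrix.scalar n z).det = (X.charpoly.roots.map fun y => y - z).prod := by
  have h1 : X - Matrix.scalar n z = -(Matrix.scalar n z - X) := by abel
  rw [h1, Matrix.det_neg, eval_charpoly_eq, ← card_roots_charpoly X, neg_pow_mul_prod]
  congr 1
  refine Multiset.map_congr rfl fun y _ => ?_
  rw [neg_sub]

lemma det_aeval_prod (X : Matrix n n K) (s : Multiset K) :
    (aeval X (s.map fun z => (Polynomial.X - C z)).prod).det =
      (X.charpoly.roots.map fun y => (s.map fun z => (y - z)).prod).prod := by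
  induction s using Multiset.induction_on with
  | empty => simp
  | cons z s ih =>
    rw [Multiset.map_cons, Multiset.prod_cons, map_mul, Matrix.det_mul, ih]
    have h1 : (aeval X (Polynomial.X - C z : K[X])) = X - Matrix.scalar n z := by
      rw [map_sub, aeval_X, aeval_C]
      rfl
    rw [h1, det_sub_scalar, ← Multiset.prod_map_mul]
    congr 1
    refine Multiset.map_congr rfl fun y _ => ?_
    rw [Multiset.map_cons, Multiset.prod_cons]

lemma det_aeval_monic (X : Matrix n n K) {p : K[X]} (hp : p.Monic) :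
    (aeval X p).det = (X.charpoly.roots.map fun y => p.eval y).prod := by
  have h1 := (IsAlgClosed.splits p).eq_prod_roots_of_monic hp
  conv_lhs => rw [h1]
  rw [det_aeval_prod]
  congr 1
  refine Multiset.map_congr rfl fun y _ => ?_
  rw [(IsAlgClosed.splits p).eval_eq_prod_roots_of_monic hp]

lemma roots_charpoly_pow (X : Matrix n n K) (m : ℕ) :
    (X ^ m).charpoly.roots = X.charpoly.roots.map fun y => y ^ m := by
  rcases Nat.eq_zero_or_pos m with rfl | hm
  · have h1 : (1 : Matrix n n K).charpoly.roots = Multiset.replicate (Fintype.card n) 1 := by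
      rw [Matrix.charpoly_one]
      rw [Polynomial.roots_pow]
      have : (Polynomial.X - 1 : K[X]).roots = {1} := by
        rw [← C_1]; exact roots_X_sub_C 1
      rw [this, Multiset.nsmul_singleton]
    simp only [pow_zero]
    rw [h1, Multiset.map_const', card_roots_charpoly]
  · have hpoly : (X ^ m).charpoly = ((X.charpoly.roots.map fun y => y ^ m).map
        fun y => (Polynomial.X - C y)).prod := by
      apply Polynomial.funext
      intro z
      rw [Matrix.eval_charpoly, Polynomial.eval_multiset_prod, Multiset.map_map, Multiset.map_map]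
      have hmonic : (Polynomial.X ^ m - C z : K[X]).Monic := monic_X_pow_sub_C z (by omega)
      have h2 := det_aeval_monic X hmonic
      have h3 : Matrix.scalar n z - X ^ m = -(aeval X (Polynomial.X ^ m - C z : K[X])) := by
        rw [map_sub, map_pow, aeval_X, aeval_C, neg_sub]
        rfl
      rw [h3, Matrix.det_neg, h2, ← card_roots_charpoly X, neg_pow_mul_prod]
      congr 1
      refine Multiset.map_congr rfl fun y _ => ?_
      simp
    rw [hpoly, roots_multiset_prod_X_sub_C]

lemma trace_pow_eq (X : Matrix n n K) (m : ℕ) :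
    (X ^ m).trace = (X.charpoly.roots.map fun y => y ^ m).sum := by
  rw [Matrix.trace_eq_sum_roots_charpoly, roots_charpoly_pow]

end roots

section newton

variable {K : Type*} [Field K]

/-- The functions `m ↦ y ^ m` are linearly independent. -/
lemma pow_independent (S : Finset K) (c : K → K) (h : ∀ m : ℕ, ∑ y ∈ S, c y * y ^ m = 0) :
    ∀ y ∈ S, c y = 0 := by
  have h1 : LinearIndependent K (fun y : K => (fun m : Multiplicative ℕ => y ^ m.toAdd)) := by
    have h2 := (linearIndependent_monoidHom (Multiplicative ℕ) K).comp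
      (fun y : K => powersHom K y) (powersHom K).injective
    exact h2
  rw [linearIndependent_iff'] at h1
  intro y hy
  refine h1 S c ?_ y hy
  ext m
  rw [Finset.sum_apply]
  simpa [smul_eq_mul] using h m.toAdd

/-- Matrices with proportional power sums have multiplicatively dependent determinants. -/
lemma prod_det_zpow_aux [IsAlgClosed K] [CharZero K] {J : Type*} [Fintype J] {κ : J → Type*}
    [∀ j, Fintype (κ j)] [∀ j, DecidableEq (κ j)] (X : ∀ j, Matrix (κ j) (κ j) K) (a : J → ℤ)
    (hX : ∀ j, (X j).det ≠ 0) (h : ∀ m : ℕ, ∑ j, (a j : K) * ((X j) ^ m).trace = 0) :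
    ∏ j, (X j).det ^ (a j) = 1 := by
  classical
  set S : Finset K := Finset.univ.biUnion fun j => (X j).charpoly.roots.toFinset with hS
  have hsub : ∀ j, (X j).charpoly.roots.toFinset ⊆ S := fun j =>
    Finset.subset_biUnion_of_mem (fun j => (X j).charpoly.roots.toFinset) (Finset.mem_univ j)
  have htr : ∀ j (m : ℕ), ((X j) ^ m).trace =
      ∑ y ∈ S, ((X j).charpoly.roots.count y : K) * y ^ m := by
    intro j m
    rw [trace_pow_eq, Finset.sum_multiset_map_count]
    rw [Finset.sum_subset (hsub j)]
    · refine Finset.sum_congr rfl fun y _ => ?_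
      rw [nsmul_eq_mul]
    · intro y _ hy
      rw [Multiset.mem_toFinset] at hy
      rw [Multiset.count_eq_zero_of_notMem hy, zero_smul]
  have hc : ∀ y ∈ S, ∑ j, (a j : K) * ((X j).charpoly.roots.count y : K) = 0 := by
    refine pow_independent S (fun y => ∑ j, (a j : K) * ((X j).charpoly.roots.count y : K)) ?_
    intro m
    rw [← h m]
    have h2 : ∀ j ∈ Finset.univ, (a j : K) * ((X j) ^ m).trace =
        ∑ y ∈ S, (a j : K) * (((X j).charpoly.roots.count y : K) * y ^ m) := by
      intro j _
      rw [htr j m, Finset.mul_sum]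
    rw [Finset.sum_congr rfl h2, Finset.sum_comm]
    refine Finset.sum_congr rfl fun y _ => ?_
    rw [Finset.sum_mul]
    refine Finset.sum_congr rfl fun j _ => ?_
    ring
  have hc' : ∀ y ∈ S, ∑ j, a j * ((X j).charpoly.roots.count y : ℤ) = 0 := by
    intro y hy
    have := hc y hy
    exact_mod_cast this
  have hdet : ∀ j, (X j).det = ∏ y ∈ S, y ^ ((X j).charpoly.roots.count y) := by
    intro j
    rw [Matrix.det_eq_prod_roots_charpoly, Finset.prod_multiset_count]
    refine Finset.prod_subset (hsub j) ?_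
    intro y _ hy
    rw [Multiset.mem_toFinset] at hy
    rw [Multiset.count_eq_zero_of_notMem hy, pow_zero]
  have hne : ∀ y ∈ S, y ≠ 0 := by
    intro y hy h0
    rw [hS, Finset.mem_biUnion] at hy
    obtain ⟨j, _, hj⟩ := hy
    apply hX j
    rw [Matrix.det_eq_prod_roots_charpoly]
    rw [h0] at hj
    exact Multiset.prod_eq_zero (Multiset.mem_toFinset.mp hj)
  have h1 : ∀ j, (X j).det ^ (a j) = ∏ y ∈ S, y ^ (a j * ((X j).charpoly.roots.count y : ℤ)) := by
    intro j
    rw [hdet j, ← Finset.prod_zpow]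
    refine Finset.prod_congr rfl fun y _ => ?_
    rw [mul_comm, zpow_mul, zpow_natCast]
  rw [Finset.prod_congr rfl fun j _ => h1 j, Finset.prod_comm]
  refine Finset.prod_eq_one fun y hy => ?_
  have h2 : ∀ (s : Finset J), ∏ j ∈ s, y ^ (a j * ((X j).charpoly.roots.count y : ℤ)) =
      y ^ (∑ j ∈ s, a j * ((X j).charpoly.roots.count y : ℤ)) := by
    intro s
    induction s using Finset.induction_on with
    | empty => simp
    | insert j s hj ih => rw [Finset.prod_insert hj, Finset.sum_insert hj, ih, zpow_add₀ (hne y hy)]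
  rw [h2, hc' y hy, zpow_zero]

lemma prod_det_zpow {E : Type*} [Field E] [CharZero E] {J : Type*} [Fintype J] {κ : J → Type*}
    [∀ j, Fintype (κ j)] [∀ j, DecidableEq (κ j)] (X : ∀ j, Matrix (κ j) (κ j) E) (a : J → ℤ)
    (hX : ∀ j, (X j).det ≠ 0) (h : ∀ m : ℕ, ∑ j, (a j : E) * ((X j) ^ m).trace = 0) :
    ∏ j, (X j).det ^ (a j) = 1 := by
  set ι := algebraMap E (AlgebraicClosure E) with hι
  have hinj : Function.Injective ι := FaithfulSMul.algebraMap_injective E (AlgebraicClosure E)
  have hdet : ∀ j, ((X j).map ι).det = ι (X j).det := fun j => (RingHom.map_det ι (X j)).symm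
  have h1 := prod_det_zpow_aux (fun j => (X j).map ι) a (by
    intro j
    rw [hdet j]
    exact fun h0 => hX j (hinj (by rw [h0, map_zero]))) (by
    intro m
    have h2 := congrArg ι (h m)
    rw [map_zero, map_sum] at h2
    rw [← h2]
    refine Finset.sum_congr rfl fun j _ => ?_
    rw [map_mul, map_intCast]
    congr 1
    have h3 : ((X j).map ι) ^ m = ((X j) ^ m).map ι := (map_pow ι.mapMatrix (X j) m).symm
    rw [h3]
    exact (AddMonoidHom.map_trace ι.toAddMonoidHom ((X j) ^ m)).symm)
  apply hinj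
  rw [map_one, map_prod, ← h1]
  refine Finset.prod_congr rfl fun j _ => ?_
  rw [map_zpow₀, hdet j]

end newton

/-- Determinants depend only on characters. -/
theorem prod_det_mapRep {Γ : Type*} [Group Γ] {E : Type*} [Field E] [CharZero E] {ι : Type*}
    [Fintype ι] [DecidableEq ι] {J : Type*} [Fintype J] {κ : J → Type*} [∀ j, Fintype (κ j)]
    [∀ j, DecidableEq (κ j)] (σ : ∀ j, Γ →* Matrix (κ j) (κ j) E) (a : J → ℤ)
    (h : ∀ g, ∑ j, (a j : E) * (σ j g).trace = 0) {A B : Matrix ι ι (MonoidAlgebra ℤ Γ)}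
    (hAB : A * B = 1) : ∏ j, (mapRep (σ j) A).det ^ (a j) = 1 := by
  refine prod_det_zpow (fun j => mapRep (σ j) A) a
    (fun j => (isUnit_det_mapRep (σ j) hAB).ne_zero) fun m => ?_
  have h1 : ∀ j ∈ Finset.univ, (a j : E) * ((mapRep (σ j) A) ^ m).trace =
      ∑ g ∈ (A ^ m).trace.coeff.support, (((A ^ m).trace.coeff g : ℤ) : E) *
        ((a j : E) * (σ j g).trace) := by
    intro j _
    rw [← mapRep_pow, trace_mapRep, Finsupp.sum, Finset.mul_sum]
    refine Finset.sum_congr rfl fun g _ => ?_
    ring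
  rw [Finset.sum_congr rfl h1, Finset.sum_comm]
  refine Finset.sum_eq_zero fun g _ => ?_
  rw [← Finset.mul_sum, h g, mul_zero]

end Pool.Agent.Lib.MP_8f66f0_al_FinQ
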