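import Mathlib
import Pool.Agent.Lib.MP_8f66f0_al_FinQ.Trace

/-! Pairings on matrices over group rings with coefficients in a commutative ring. -/

set_option autoImplicit false

namespace Pool.Agent.Lib.MP_8f66f0_al_FinQ

open Pool.Agent.Lib.MP_8f66f0_al_Dennis

section functionals

variable {Γ O : Type*} [CommRing O]

/-- The additive functional on the group ring with value `a * t g` on `a g`. -/
noncomputable def lin (t : Γ → O) : MonoidAlgebra O Γ →+ O :=
  (Finsupp.liftAddHom fun g => AddMonoidHom.mulRight (t g)).comp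
    (MonoidAlgebra.coeffAddEquiv (R := O) (M := Γ)).toAddMonoidHom

lemma lin_apply (t : Γ → O) (x : MonoidAlgebra O Γ) :
    lin t x = x.coeff.sum fun g a => a * t g := rfl

lemma lin_single (t : Γ → O) (g : Γ) (a : O) : lin t (MonoidAlgebra.single g a) = a * t g := by
  rw [lin_apply, MonoidAlgebra.coeff_single, Finsupp.sum_single_index (zero_mul _)]

/-- The biadditive functional on the group ring with value `a * (b * ψ g h)` on `(a g, b h)`. -/
noncomputable def bil (ψ : Γ → Γ → O) : MonoidAlgebra O Γ →+ MonoidAlgebra O Γ →+ O :=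
  (Finsupp.liftAddHom fun g => AddMonoidHom.mk'
    (fun a : O => (AddMonoidHom.mulLeft a).comp (lin (ψ g)))
    (by
      intro a b
      refine AddMonoidHom.ext fun x => ?_
      change (a + b) * lin (ψ g) x = a * lin (ψ g) x + b * lin (ψ g) x
      ring)).comp
    (MonoidAlgebra.coeffAddEquiv (R := O) (M := Γ)).toAddMonoidHom

lemma bil_single (ψ : Γ → Γ → O) (g h : Γ) (a b : O) :
    bil ψ (MonoidAlgebra.single g a) (MonoidAlgebra.single h b) = a * (b * ψ g h) := by
  have h1 : bil ψ (MonoidAlgebra.single g a) = (AddMonoidHom.mulLeft a).comp (lin (ψ g)) := by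
    change (MonoidAlgebra.single g a).coeff.sum _ = _
    rw [MonoidAlgebra.coeff_single, Finsupp.sum_single_index]
    · rfl
    · exact map_zero _
  rw [h1, AddMonoidHom.comp_apply, lin_single]
  rfl

/-- Two biadditive functionals which agree on multiples of group elements are equal. -/
lemma biadd_ext {N : Type*} [AddCommGroup N] {S : Type*} [Semiring S]
    {f g : MonoidAlgebra S Γ →+ MonoidAlgebra S Γ →+ N}
    (h : ∀ x a y b, f (MonoidAlgebra.single x a) (MonoidAlgebra.single y b) =
      g (MonoidAlgebra.single x a) (MonoidAlgebra.single y b)) : f = g := by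
  refine MonoidAlgebra.addMonoidHom_ext fun x a => ?_
  exact MonoidAlgebra.addMonoidHom_ext fun y b => h x a y b

end functionals

section matrices

variable {E O ι : Type*} [Ring E] [AddCommGroup O] [Fintype ι]

/-- The functional on matrices given by a functional applied to the trace. -/
def mtr (τ : E →+ O) : Matrix ι ι E →+ O := τ.comp (Matrix.traceAddMonoidHom ι E)

lemma mtr_apply (τ : E →+ O) (X : Matrix ι ι E) : mtr τ X = τ (Matrix.trace X) := rfl

/-- The biadditive functional on matrices attached to a biadditive functional. -/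
def mbil (b : E →+ E →+ O) : Matrix ι ι E →+ Matrix ι ι E →+ O :=
  AddMonoidHom.mk' (fun X => AddMonoidHom.mk' (fun Y => ∑ i, ∑ j, b (X i j) (Y j i))
    (by
      intro Y Z
      simp only [Matrix.add_apply, map_add, Finset.sum_add_distrib]))
    (by
      intro X X'
      ext Y
      simp only [AddMonoidHom.mk'_apply, Matrix.add_apply, map_add, AddMonoidHom.add_apply,
        Finset.sum_add_distrib])

lemma mbil_apply (b : E →+ E →+ O) (X Y : Matrix ι ι E) :
    mbil b X Y = ∑ i, ∑ j, b (X i j) (Y j i) := rfl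

lemma mbil_cocycle {b : E →+ E →+ O} (hb : ∀ x y z, b x (y * z) = b (x * y) z + b (z * x) y)
    (X Y Z : Matrix ι ι E) : mbil b X (Y * Z) = mbil b (X * Y) Z + mbil b (Z * X) Y := by
  have h1 : mbil b X (Y * Z) = ∑ i, ∑ j, ∑ k, b (X i j) (Y j k * Z k i) := by
    rw [mbil_apply]
    refine Finset.sum_congr rfl fun i _ => Finset.sum_congr rfl fun j _ => ?_
    rw [Matrix.mul_apply, map_sum]
  have h2 : mbil b (X * Y) Z = ∑ i, ∑ k, ∑ j, b (X i j * Y j k) (Z k i) := by
    rw [mbil_apply]
    refine Finset.sum_congr rfl fun i _ => Finset.sum_congr rfl fun k _ => ?_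
    rw [Matrix.mul_apply, map_sum, AddMonoidHom.finsetSum_apply]
  have h3 : mbil b (Z * X) Y = ∑ k, ∑ j, ∑ i, b (Z k i * X i j) (Y j k) := by
    rw [mbil_apply]
    refine Finset.sum_congr rfl fun k _ => Finset.sum_congr rfl fun j _ => ?_
    rw [Matrix.mul_apply, map_sum, AddMonoidHom.finsetSum_apply]
  have h4 : ∑ k, ∑ j, ∑ i, b (Z k i * X i j) (Y j k) =
      ∑ i, ∑ j, ∑ k, b (Z k i * X i j) (Y j k) := by
    rw [Finset.sum_comm]
    rw [Finset.sum_congr rfl fun j _ => Finset.sum_comm]
    rw [Finset.sum_comm]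
  have h5 : ∑ i, ∑ k, ∑ j, b (X i j * Y j k) (Z k i) =
      ∑ i, ∑ j, ∑ k, b (X i j * Y j k) (Z k i) :=
    Finset.sum_congr rfl fun i _ => Finset.sum_comm
  rw [h1, h2, h3, h4, h5, ← Finset.sum_add_distrib]
  refine Finset.sum_congr rfl fun i _ => ?_
  rw [← Finset.sum_add_distrib]
  refine Finset.sum_congr rfl fun j _ => ?_
  rw [← Finset.sum_add_distrib]
  exact Finset.sum_congr rfl fun k _ => hb _ _ _

lemma mbil_one [DecidableEq ι] {b : E →+ E →+ O} {τ : E →+ O} {d : ℤ}
    (hb : ∀ y, b 1 y = d • τ y) (Y : Matrix ι ι E) : mbil b 1 Y = d • mtr τ Y := by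
  rw [mbil_apply, mtr_apply, Matrix.trace, map_sum, Finset.smul_sum]
  refine Finset.sum_congr rfl fun i _ => ?_
  rw [Finset.sum_eq_single i]
  · rw [Matrix.one_apply_eq, hb, Matrix.diag_apply]
  · intro j _ hj
    rw [Matrix.one_apply_ne hj.symm, map_zero, AddMonoidHom.zero_apply]
  · intro h
    exact absurd (Finset.mem_univ _) h

end matrices

section classes

variable {Γ O : Type*} [Group Γ] [CommRing O]

open Classical in
/-- The function `(g, h) ↦ δ(h, gh)` for `gh` conjugate to `c`, and zero otherwise. -/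
noncomputable def psi (O : Type*) [CommRing O] (c : Γ) (δ : Γ → Γ → ℤ) (g h : Γ) : O :=
  if IsConj c (g * h) then (δ h (g * h) : O) else 0

open Classical in
/-- The indicator function of the class of `c`. -/
noncomputable def ind (O : Type*) [CommRing O] (c g : Γ) : O := if IsConj c g then 1 else 0

lemma isConj_cyc {c g h : Γ} : IsConj c (g * h) ↔ IsConj c (h * g) := by
  have h1 : IsConj (g * h) (h * g) := isConj_iff.mpr ⟨h, by group⟩
  exact ⟨fun h' => h'.trans h1, fun h' => h'.trans h1.symm⟩

lemma psi_cocycle {c : Γ} {δ : Γ → Γ → ℤ} (hδ : IsClassCocycle c δ) (g h k : Γ) :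
    psi O c δ g (h * k) = psi O c δ (g * h) k + psi O c δ (k * g) h := by
  unfold psi
  by_cases hc : IsConj c (g * (h * k))
  · have h1 : IsConj c (g * h * k) := by rwa [mul_assoc]
    have h2 : IsConj c (k * g * h) := by
      rw [mul_assoc]; exact isConj_cyc.mp h1
    rw [if_pos hc, if_pos h1, if_pos h2, hδ h k _ hc]
    have e1 : k * (g * (h * k)) * k⁻¹ = k * g * h := by group
    have e2 : g * (h * k) = g * h * k := by group
    rw [e1, e2]
    push_cast
    ring
  · have h1 : ¬ IsConj c (g * h * k) := by rwa [mul_assoc]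
    have h2 : ¬ IsConj c (k * g * h) := by
      rw [mul_assoc]; exact fun h => h1 (isConj_cyc.mpr h)
    rw [if_neg hc, if_neg h1, if_neg h2, add_zero]

lemma cocycle_diag {c : Γ} {δ : Γ → Γ → ℤ} (hδ : IsClassCocycle c δ) {h : Γ} (hh : IsConj c h) :
    δ h h = δ c c := by
  obtain ⟨g, rfl⟩ := isConj_iff.mp hh
  have h1 := hδ (g * c * g⁻¹) g c (IsConj.refl c)
  have h2 := hδ g c c (IsConj.refl c)
  have e1 : g * c * g⁻¹ * g = g * c := by group
  have e2 : c * c * c⁻¹ = c := by group
  rw [e1] at h1
  rw [e2] at h2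
  have h3 : δ (g * c * g⁻¹) (g * c * g⁻¹) + δ g c = δ g c + δ c c := by rw [← h1, ← h2]
  linarith

lemma psi_one {c : Γ} {δ : Γ → Γ → ℤ} (hδ : IsClassCocycle c δ) (h : Γ) :
    psi O c δ 1 h = (δ c c : O) * ind O c h := by
  unfold psi ind
  rw [one_mul]
  by_cases hc : IsConj c h
  · rw [if_pos hc, if_pos hc, cocycle_diag hδ hc, mul_one]
  · rw [if_neg hc, if_neg hc, mul_zero]

lemma bil_psi_cocycle {c : Γ} {δ : Γ → Γ → ℤ} (hδ : IsClassCocycle c δ)
    (x y z : MonoidAlgebra O Γ) :
    bil (psi O c δ) x (y * z) = bil (psi O c δ) (x * y) z + bil (psi O c δ) (z * x) y := by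
  induction x using MonoidAlgebra.induction_linear with
  | zero => simp
  | add x x' hx hx' =>
    rw [add_mul, mul_add, map_add, map_add, map_add, AddMonoidHom.add_apply,
      AddMonoidHom.add_apply, AddMonoidHom.add_apply, hx, hx']
    abel
  | single g a =>
    induction y using MonoidAlgebra.induction_linear with
    | zero => simp
    | add y y' hy hy' =>
      rw [add_mul, mul_add, map_add, map_add, map_add, AddMonoidHom.add_apply, hy, hy']
      abel
    | single h b =>
      induction z using MonoidAlgebra.induction_linear with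
      | zero => simp
      | add z z' hz hz' =>
        rw [add_mul, mul_add, map_add, map_add, map_add, AddMonoidHom.add_apply, hz, hz']
        abel
      | single k e =>
        rw [MonoidAlgebra.single_mul_single, MonoidAlgebra.single_mul_single,
          MonoidAlgebra.single_mul_single, bil_single, bil_single, bil_single,
          psi_cocycle hδ]
        ring

lemma bil_psi_one {c : Γ} {δ : Γ → Γ → ℤ} (hδ : IsClassCocycle c δ) (y : MonoidAlgebra O Γ) :
    bil (psi O c δ) 1 y = δ c c • lin (ind O c) y := by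
  induction y using MonoidAlgebra.induction_linear with
  | zero => simp
  | add y y' hy hy' => rw [map_add, map_add, hy, hy', smul_add]
  | single h b =>
    rw [MonoidAlgebra.one_def, bil_single, lin_single, psi_one hδ, zsmul_eq_mul]
    ring

lemma IsClassCocycle.of_isConj {c c' : Γ} (h : IsConj c c') {δ : Γ → Γ → ℤ}
    (hδ : IsClassCocycle c δ) : IsClassCocycle c' δ :=
  fun g k x hx => hδ g k x (h.trans hx)

lemma Detected.of_isConj {c c' : Γ} (h : IsConj c c') (hc : Detected c) : Detected c' := by
  obtain ⟨δ, hδ, hne⟩ := hc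
  exact ⟨δ, IsClassCocycle.of_isConj h hδ, by rwa [cocycle_diag hδ h]⟩

lemma not_detected_one : ¬ Detected (1 : Γ) := by
  rintro ⟨δ, hδ, hne⟩
  apply hne
  have := hδ 1 1 1 (IsConj.refl 1)
  simpa using this

open Classical in
/-- A class function supported on detected elements takes values divisible by `q` on `x` if all
the class sums of `x` at detected classes are. -/
lemma dvd_lin_of_class {q : O} {x : MonoidAlgebra O Γ}
    (hx : ∀ c : Γ, Detected c → q ∣ lin (ind O c) x) {f : Γ → O}
    (hf : ∀ g h : Γ, IsConj g h → f g = f h) (hf0 : ∀ g, ¬ Detected g → f g = 0) :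
    q ∣ lin f x := by
  set S := x.coeff.support with hS
  have h1 : lin f x = ∑ C ∈ S.image ConjClasses.mk,
      ∑ g ∈ S with ConjClasses.mk g = C, x.coeff g * f g := by
    rw [lin_apply, Finsupp.sum]
    exact (Finset.sum_fiberwise_of_maps_to (fun g hg => Finset.mem_image_of_mem _ hg) _).symm
  rw [h1]
  refine Finset.dvd_sum fun C hC => ?_
  obtain ⟨c, hc, rfl⟩ := Finset.mem_image.mp hC
  have h2 : ∀ g ∈ S.filter (fun g => ConjClasses.mk g = ConjClasses.mk c),
      x.coeff g * f g = x.coeff g * f c := by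
    intro g hg
    rw [hf g c (ConjClasses.mk_eq_mk_iff_isConj.mp (Finset.mem_filter.mp hg).2)]
  rw [Finset.sum_congr rfl h2, ← Finset.sum_mul]
  by_cases hd : Detected c
  · have h3 : ∑ g ∈ S with ConjClasses.mk g = ConjClasses.mk c, x.coeff g =
        lin (ind O c) x := by
      rw [lin_apply, Finsupp.sum, Finset.sum_filter]
      refine Finset.sum_congr rfl fun g _ => ?_
      unfold ind
      by_cases hg : IsConj c g
      · rw [if_pos hg, if_pos (ConjClasses.mk_eq_mk_iff_isConj.mpr hg.symm), mul_one]
      · rw [if_neg hg, if_neg (fun h => hg (ConjClasses.mk_eq_mk_iff_isConj.mp h).symm),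
          mul_zero]
    rw [h3]
    exact Dvd.dvd.mul_right (hx c hd) _
  · rw [hf0 c hd, mul_zero]
    exact dvd_zero _

end classes

end Pool.Agent.Lib.MP_8f66f0_al_FinQ
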