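import Mathlib

/-! Twists and tensor products of representations: definitions. -/

set_option autoImplicit false
set_option linter.unusedSectionVars false

namespace Pool.Agent.Lib.MP_8f66f0_al_FinQ

section twist

variable {Γ : Type*} [Group Γ] {O : Type*} [CommRing O]
  {ι κ κ' : Type*} [Fintype ι] [DecidableEq ι] [Fintype κ] [DecidableEq κ] [Fintype κ']
  [DecidableEq κ']

lemma trace_isConj (σ : Γ →* Matrix κ κ O) {g h : Γ} (hgh : IsConj g h) :
    Matrix.trace (σ g) = Matrix.trace (σ h) := by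
  obtain ⟨c, rfl⟩ := isConj_iff.mp hgh
  rw [map_mul, map_mul, Matrix.trace_mul_comm, ← mul_assoc, ← map_mul, inv_mul_cancel, map_one,
    one_mul]

/-- `g ↦ β(g) g` -/
noncomputable def twMon (β : Γ →* Matrix κ κ O) : Γ →* Matrix κ κ (MonoidAlgebra O Γ) where
  toFun g := (β g).map (MonoidAlgebra.single g)
  map_one' := by
    rw [map_one]
    ext i j : 1
    rw [Matrix.map_apply, Matrix.one_apply, Matrix.one_apply]
    split_ifs
    · rfl
    · rw [MonoidAlgebra.single_zero]
  map_mul' g h := by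
    rw [map_mul]
    ext i j : 1
    rw [Matrix.map_apply, Matrix.mul_apply, Matrix.mul_apply]
    have h1 := map_sum (MonoidAlgebra.singleAddHom (R := O) (g * h))
      (fun k => β g i k * β h k j) Finset.univ
    refine Eq.trans h1 (Finset.sum_congr rfl fun k _ => ?_)
    rw [Matrix.map_apply, Matrix.map_apply, MonoidAlgebra.single_mul_single]
    rfl

lemma twMon_apply (β : Γ →* Matrix κ κ O) (g : Γ) (i j : κ) :
    twMon β g i j = MonoidAlgebra.single g (β g i j) := rfl

/-- The homomorphism `g ↦ β(g) g` on the integral group ring. -/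
noncomputable def twHom (β : Γ →* Matrix κ κ O) :
    MonoidAlgebra ℤ Γ →ₐ[ℤ] Matrix κ κ (MonoidAlgebra O Γ) :=
  MonoidAlgebra.lift ℤ (Matrix κ κ (MonoidAlgebra O Γ)) Γ (twMon β)

lemma twHom_single (β : Γ →* Matrix κ κ O) (g : Γ) (m : ℤ) :
    twHom β (MonoidAlgebra.single g m) = m • twMon β g := by
  rw [twHom, MonoidAlgebra.lift_single]

/-- The matrix `A` twisted by `β`. -/
noncomputable def twist (β : Γ →* Matrix κ κ O) :
    Matrix ι ι (MonoidAlgebra ℤ Γ) →+* Matrix (ι × κ) (ι × κ) (MonoidAlgebra O Γ) :=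
  (Matrix.compRingEquiv ι κ (MonoidAlgebra O Γ)).toRingHom.comp (twHom β).toRingHom.mapMatrix

lemma twist_apply (β : Γ →* Matrix κ κ O) (A : Matrix ι ι (MonoidAlgebra ℤ Γ)) (x y : ι × κ) :
    twist β A x y = twHom β (A x.1 y.1) x.2 y.2 := rfl

/-- The tensor product of two representations. -/
def tens (β : Γ →* Matrix κ κ O) (σ : Γ →* Matrix κ' κ' O) :
    Γ →* Matrix (κ × κ') (κ × κ') O where
  toFun g := Matrix.kroneckerMap (· * ·) (β g) (σ g)
  map_one' := by
    rw [map_one, map_one]; exact Matrix.one_kronecker_one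
  map_mul' g h := by
    rw [map_mul, map_mul]; exact Matrix.mul_kronecker_mul _ _ _ _

lemma tens_apply (β : Γ →* Matrix κ κ O) (σ : Γ →* Matrix κ' κ' O) (g : Γ) (x y : κ × κ') :
    tens β σ g x y = β g x.1 y.1 * σ g x.2 y.2 := rfl

end twist

end Pool.Agent.Lib.MP_8f66f0_al_FinQ
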