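import Mathlib

/-! Abstract `p`-adic estimates for traces and determinants. -/

set_option autoImplicit false

namespace Pool.Agent.Lib.MP_8f66f0_al_FinQ

section ring

variable {R : Type*} [Ring R]

lemma one_add_pow_expand (y : R) (m : ℕ) : ∃ W : R, (1 + y) ^ m = 1 + m • y + y * y * W := by
  induction m with
  | zero => exact ⟨0, by simp⟩
  | succ m ih =>
    obtain ⟨W, hW⟩ := ih
    refine ⟨m • 1 + W + W * y, ?_⟩
    rw [pow_succ, hW]
    simp only [nsmul_eq_mul, mul_one, Nat.cast_add, Nat.cast_one]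
    have h := (Nat.cast_commute m y)
    have h2 := (Nat.cast_commute m (y * y))
    have e1 : (m : R) * y * y = y * y * (m : R) := by rw [mul_assoc]; exact h2.eq
    calc (1 + (m : R) * y + y * y * W) * (1 + y)
        = 1 + (m : R) * y + y + (m : R) * y * y + y * y * W + y * y * W * y := by noncomm_ring
      _ = 1 + (m : R) * y + y + y * y * (m : R) + y * y * W + y * y * W * y := by rw [e1]
      _ = _ := by noncomm_ring

/-- The sequence `Z r` with `X ^ (p ^ r) = 1 + p ^ (r + 2) Z r`. -/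
lemma exists_seq (p : ℕ) {X Z0 : R} (hX : X = 1 + (p ^ 2) • Z0) :
    ∃ Z : ℕ → R, Z 0 = Z0 ∧ (∀ r, X ^ (p ^ r) = 1 + (p ^ (r + 2)) • Z r) ∧
      ∀ r, ∃ V, Z (r + 1) = Z r + (p ^ (r + 1)) • V := by
  have step : ∀ (r : ℕ) (z : R), ∃ z' : R,
      (1 + (p ^ (r + 2)) • z) ^ p = 1 + (p ^ (r + 3)) • z' ∧
      ∃ V, z' = z + (p ^ (r + 1)) • V := by
    intro r z
    obtain ⟨W, hW⟩ := one_add_pow_expand ((p ^ (r + 2)) • z) p
    refine ⟨z + (p ^ (r + 1)) • (z * z * W), ?_, _, rfl⟩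
    rw [hW, smul_add, smul_smul, smul_smul]
    have e1 : (p ^ (r + 2)) • z * (p ^ (r + 2)) • z * W =
        (p ^ (r + 3) * p ^ (r + 1)) • (z * z * W) := by
      rw [smul_mul_assoc, smul_mul_assoc, mul_smul_comm, smul_mul_assoc, smul_smul]
      congr 1
      ring
    rw [e1, ← add_assoc]
    congr 3
    ring
  choose f hf1 hf2 using step
  let Z : ℕ → R := fun r => Nat.rec Z0 (fun r z => f r z) r
  have hZs : ∀ r, Z (r + 1) = f r (Z r) := fun r => rfl
  refine ⟨Z, rfl, ?_, ?_⟩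
  · intro r
    induction r with
    | zero => rw [pow_zero, pow_one, zero_add]; exact hX
    | succ r ih =>
      rw [pow_succ, pow_mul, ih, hf1, hZs]
  · intro r
    rw [hZs]
    exact hf2 r (Z r)

lemma seq_diff (p : ℕ) {Z : ℕ → R} (hZ : ∀ r, ∃ V, Z (r + 1) = Z r + (p ^ (r + 1)) • V)
    (r j : ℕ) : ∃ V, Z (r + j) = Z r + (p ^ (r + 1)) • V := by
  induction j with
  | zero => exact ⟨0, by simp⟩
  | succ j ih =>
    obtain ⟨V, hV⟩ := ih
    obtain ⟨V', hV'⟩ := hZ (r + j)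
    refine ⟨V + (p ^ j) • V', ?_⟩
    rw [← add_assoc, hV', hV, smul_add, smul_smul, add_assoc]
    congr 3
    ring

end ring

section trace

variable {O R : Type*} [CommRing O] [IsDomain O] [CharZero O] [Ring R]

omit [IsDomain O] [CharZero O] in
lemma phi_pow {φ : R →+ R →+ O} (hφ : ∀ x y z, φ x (y * z) = φ (x * y) z + φ (z * x) y)
    (X : R) (a b : ℕ) : φ (X ^ a) (X ^ (b + 1)) = (b + 1) • φ (X ^ (a + b)) X := by
  induction b generalizing a with
  | zero => simp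
  | succ b ih =>
    have e1 : X * X ^ a = X ^ (a + 1) := (pow_succ' X a).symm
    have e2 : a + 1 + b = a + (b + 1) := by ring
    rw [pow_succ X (b + 1), hφ, ← pow_add, e1, ih, e2, succ_nsmul _ (b + 1), add_comm]

/-- The trace of `Z r` at a class with a nonzero cocycle is divisible by `p ^ (r + 1)`. -/
theorem tau_dvd {p : ℕ} (hp : p.Prime) {φ : R →+ R →+ O} {τ : R →+ O} {d : ℤ} (hd : d ≠ 0)
    (hφ : ∀ x y z, φ x (y * z) = φ (x * y) z + φ (z * x) y) (hφ1 : ∀ y, φ 1 y = d • τ y)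
    {X X' : R} (hX : X' * X = 1) (h0 : φ X' X = 0) {Z : ℕ → R}
    (hZ1 : ∀ r, X ^ (p ^ r) = 1 + (p ^ (r + 2)) • Z r)
    (hZ2 : ∀ r, ∃ V, Z (r + 1) = Z r + (p ^ (r + 1)) • V) (r : ℕ) :
    (p : O) ^ (r + 1) ∣ τ (Z r) := by
  have hp0 : (p : O) ≠ 0 := Nat.cast_ne_zero.mpr hp.ne_zero
  -- the value at one vanishes
  have h11 : φ 1 1 = 0 := by
    have := hφ 1 1 1
    rw [mul_one] at this
    exact left_eq_add.mp this
  have hτ1 : τ 1 = 0 := by
    have := hφ1 1
    rw [h11] at this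
    rcases smul_eq_zero.mp this.symm with h | h
    · exact absurd h hd
    · exact h
  -- first estimate
  have key : ∀ r, (p : O) ^ r ∣ d • τ (Z r) := by
    intro r
    have hN : 0 < p ^ r := pow_pos hp.pos r
    obtain ⟨N, hNeq⟩ : ∃ N, p ^ r = N + 1 := ⟨p ^ r - 1, by omega⟩
    have h1 : φ 1 (X ^ (p ^ r)) = (p ^ r) • φ (X ^ N) X := by
      have := phi_pow hφ X 0 N
      rw [pow_zero, zero_add] at this
      rw [hNeq, this]
    have h2 : X ^ N = X' + (p ^ (r + 2)) • (X' * Z r) := by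
      have : X' * X ^ (p ^ r) = X ^ N := by
        rw [hNeq, pow_succ', ← mul_assoc, hX, one_mul]
      rw [← this, hZ1, mul_add, mul_one, mul_smul_comm]
    have h3 : φ (X ^ N) X = (p ^ (r + 2)) • φ (X' * Z r) X := by
      rw [h2, map_add, AddMonoidHom.add_apply, h0, zero_add, map_nsmul, AddMonoidHom.nsmul_apply]
    have h4 : φ 1 (X ^ (p ^ r)) = (p ^ (r + 2)) • (d • τ (Z r)) := by
      rw [hφ1, hZ1, map_add, hτ1, zero_add, map_nsmul, smul_comm]
    have h5 : (p ^ (r + 2)) • (d • τ (Z r)) = (p ^ (r + 2)) • ((p ^ r) • φ (X' * Z r) X) := by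
      rw [← h4, h1, h3, smul_smul, smul_smul, mul_comm]
    have h6 : d • τ (Z r) = (p ^ r) • φ (X' * Z r) X := by
      have hne : (p ^ (r + 2)) ≠ 0 := pow_ne_zero _ hp.ne_zero
      exact smul_right_injective O hne h5
    rw [h6, nsmul_eq_mul, Nat.cast_pow]
    exact dvd_mul_right _ _
  -- split off the power of `p` from `d`
  obtain ⟨v, d', hd', hdd⟩ : ∃ (v : ℕ) (d' : ℤ), ¬ (p : ℤ) ∣ d' ∧ d = (p : ℤ) ^ v * d' := by
    have hfin : FiniteMultiplicity (p : ℤ) d :=
      Int.finiteMultiplicity_iff.mpr ⟨by rw [Int.natAbs_natCast]; exact hp.ne_one, hd⟩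
    obtain ⟨d', h1, h2⟩ := hfin.exists_eq_pow_mul_and_not_dvd
    exact ⟨_, d', h2, h1⟩
  have hcop : IsCoprime ((p : ℤ) ^ (r + 1)) d' := by
    apply IsCoprime.pow_left
    rw [Int.isCoprime_iff_gcd_eq_one, Int.gcd_eq_natAbs, Int.natAbs_natCast]
    exact (Nat.Prime.coprime_iff_not_dvd hp).mpr (fun h => hd' (Int.natCast_dvd.mpr h))
  -- far out
  obtain ⟨V, hV⟩ := seq_diff p hZ2 r (v + 1)
  have h1 := key (r + (v + 1))
  have h2 : (p : O) ^ (r + 1) ∣ (d' : O) * τ (Z (r + (v + 1))) := by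
    rw [hdd, zsmul_eq_mul] at h1
    push_cast at h1
    have e : (p : O) ^ (r + (v + 1)) = (p : O) ^ v * (p : O) ^ (r + 1) := by ring
    rw [e, mul_assoc] at h1
    exact (mul_dvd_mul_iff_left (pow_ne_zero v hp0)).mp h1
  have h3 : (p : O) ^ (r + 1) ∣ τ (Z (r + (v + 1))) := by
    obtain ⟨a, b, hab⟩ := hcop
    have e : τ (Z (r + (v + 1))) = (p : O) ^ (r + 1) * ((a : O) * τ (Z (r + (v + 1)))) +
        (b : O) * ((d' : O) * τ (Z (r + (v + 1)))) := by
      have h : ((a * (p : ℤ) ^ (r + 1) + b * d' : ℤ) : O) = 1 := by rw [hab]; simp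
      push_cast at h
      linear_combination (-(τ (Z (r + (v + 1))))) * h
    rw [e]
    exact dvd_add (dvd_mul_right _ _) (Dvd.dvd.mul_left h2 _)
  rw [hV, map_add, map_nsmul, nsmul_eq_mul, Nat.cast_pow] at h3
  exact (dvd_add_left (dvd_mul_right _ _)).mp h3

end trace

section separated

variable {O : Type*} [CommRing O] [IsDomain O] [CharZero O]

/-- `O` is `p`-adically separated. -/
def PSep (O : Type*) [CommRing O] (p : ℕ) : Prop := ∀ x : O, (∀ k : ℕ, (p : O) ^ k ∣ x) → x = 0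

omit [CharZero O] in
lemma PSep.of_noetherian [IsNoetherianRing O] {p : ℕ} (hp : ¬ IsUnit (p : O)) : PSep O p := by
  intro x hx
  have h1 : (⨅ i : ℕ, Ideal.span {(p : O)} ^ i) = ⊥ :=
    Ideal.iInf_pow_eq_bot_of_isDomain _ (fun h => hp (Ideal.span_singleton_eq_top.mp h))
  have h2 : x ∈ (⨅ i : ℕ, Ideal.span {(p : O)} ^ i) := by
    rw [Submodule.mem_iInf]
    intro i
    rw [Ideal.span_singleton_pow]
    exact Ideal.mem_span_singleton.mpr (hx i)
  rw [h1] at h2
  exact (Submodule.mem_bot O).mp h2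

/-- Two elements congruent to one modulo `p ^ 2` whose `p ^ r`-th powers are close for every `r`
are equal. -/
theorem eq_of_close {p : ℕ} (hp : p.Prime) (hO : PSep O p) {a b : O}
    (ha : (p : O) ^ 2 ∣ a - 1) (hb : (p : O) ^ 2 ∣ b - 1)
    (h : ∀ r : ℕ, (p : O) ^ (2 * r + 3) ∣ a ^ (p ^ r) - b ^ (p ^ r)) : a = b := by
  have hp0 : (p : O) ≠ 0 := Nat.cast_ne_zero.mpr hp.ne_zero
  -- powers stay congruent to one modulo `p ^ 2`
  have hone : ∀ u : O, (p : O) ^ 2 ∣ u - 1 → ∀ m : ℕ, (p : O) ^ 2 ∣ u ^ m - 1 := by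
    intro u hu m
    exact hu.trans (by simpa using sub_dvd_pow_sub_pow u 1 m)
  -- one step
  have step : ∀ u v : O, (p : O) ^ 2 ∣ u - 1 → (p : O) ^ 2 ∣ v - 1 →
      ∃ w : O, u ^ p - v ^ p = (p : O) * (u - v) * (1 + (p : O) * w) := by
    intro u v hu hv
    have h1 : (p : O) ^ 2 ∣ (∑ i ∈ Finset.range p, u ^ i * v ^ (p - 1 - i)) - (p : O) := by
      have e : (∑ i ∈ Finset.range p, u ^ i * v ^ (p - 1 - i)) - (p : O) =
          ∑ i ∈ Finset.range p, (u ^ i * v ^ (p - 1 - i) - 1) := by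
        rw [Finset.sum_sub_distrib]
        simp
      rw [e]
      refine Finset.dvd_sum fun i _ => ?_
      have e2 : u ^ i * v ^ (p - 1 - i) - 1 =
          (u ^ i - 1) * v ^ (p - 1 - i) + (v ^ (p - 1 - i) - 1) := by ring
      rw [e2]
      exact dvd_add (Dvd.dvd.mul_right (hone u hu i) _) (hone v hv _)
    obtain ⟨w, hw⟩ := h1
    refine ⟨w, ?_⟩
    have h2 : (∑ i ∈ Finset.range p, u ^ i * v ^ (p - 1 - i)) * (u - v) = u ^ p - v ^ p :=
      (Commute.all u v).geom_sum₂_mul p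
    rw [← h2]
    have h3 : (∑ i ∈ Finset.range p, u ^ i * v ^ (p - 1 - i)) = (p : O) + (p : O) ^ 2 * w := by
      rw [← hw]; ring
    rw [h3]
    ring
  have main : ∀ r : ℕ, ∃ w : O, a ^ (p ^ r) - b ^ (p ^ r) =
      (p : O) ^ r * (a - b) * (1 + (p : O) * w) := by
    intro r
    induction r with
    | zero => exact ⟨0, by simp⟩
    | succ r ih =>
      obtain ⟨w, hw⟩ := ih
      obtain ⟨w', hw'⟩ := step _ _ (hone a ha (p ^ r)) (hone b hb (p ^ r))
      refine ⟨w + w' + p * w * w', ?_⟩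
      rw [pow_succ p r, pow_mul, pow_mul, hw', hw]
      ring
  have hdiff : a - b = 0 := by
    apply hO
    intro k
    obtain ⟨w, hw⟩ := main k
    have h1 := h k
    rw [hw] at h1
    have e : (p : O) ^ (2 * k + 3) = (p : O) ^ k * (p : O) ^ (k + 3) := by ring
    rw [e, mul_assoc] at h1
    have h2 := (mul_dvd_mul_iff_left (pow_ne_zero k hp0)).mp h1
    have h3 : (p : O) ^ k ∣ (a - b) * (1 + (p : O) * w) :=
      (pow_dvd_pow _ (by omega)).trans h2
    -- `1 + p w` is a unit modulo `p ^ k`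
    have h4 : (p : O) ^ k ∣ (1 + (p : O) * w) *
        (∑ i ∈ Finset.range k, (-((p : O) * w)) ^ i) - 1 := by
      have e1 := mul_neg_geom_sum (-((p : O) * w)) k
      rw [sub_neg_eq_add] at e1
      rw [e1]
      have e2 : (1 : O) - (-((p : O) * w)) ^ k - 1 = (p : O) ^ k * (-((-w) ^ k)) := by
        rw [← mul_neg, mul_pow]; ring
      rw [e2]
      exact dvd_mul_right _ _
    have e3 : a - b = (a - b) * (1 + (p : O) * w) *
        (∑ i ∈ Finset.range k, (-((p : O) * w)) ^ i) -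
        (a - b) * ((1 + (p : O) * w) * (∑ i ∈ Finset.range k, (-((p : O) * w)) ^ i) - 1) := by
      ring
    rw [e3]
    exact dvd_sub (Dvd.dvd.mul_right h3 _) (Dvd.dvd.mul_left h4 _)
  exact sub_eq_zero.mp hdiff

end separated

section det

variable {O : Type*} [CommRing O] {ι : Type*} [Fintype ι] [DecidableEq ι]

lemma det_one_add_nsmul (q : ℕ) (T : Matrix ι ι O) :
    ∃ c : O, (1 + q • T).det = 1 + (q : O) * T.trace + (q : O) ^ 2 * c := by
  refine ⟨(Matrix.det (1 + (Polynomial.X : Polynomial O) •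
    T.map Polynomial.C)).divX.divX.eval (q : O), ?_⟩
  have h := Matrix.det_one_add_smul (q : O) T
  have e : q • T = (q : O) • T := by
    ext i j
    simp [nsmul_eq_mul]
  rw [e, h]
  ring

end det

end Pool.Agent.Lib.MP_8f66f0_al_FinQ
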