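import Mathlib
import Pool.Agent.Lib.MP_8f66f0_al_FinQ.Trace

/-! Determinants depend only on characters, for matrices of different sizes. -/

set_option autoImplicit false
set_option linter.unusedSectionVars false

namespace Pool.Agent.Lib.MP_8f66f0_al_FinQ

lemma trace_reindex_self {E : Type*} [AddCommMonoid E] {κ κ' : Type*} [Fintype κ] [Fintype κ']
    (e : κ ≃ κ') (X : Matrix κ κ E) : (Matrix.reindex e e X).trace = X.trace := by
  unfold Matrix.trace
  exact Fintype.sum_equiv e.symm _ _ fun i => rfl

/-- Two matrices whose powers have the same traces have the same determinant. -/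
lemma det_eq_of_trace_pow {E : Type*} [Field E] [CharZero E] {κ κ' : Type*} [Fintype κ]
    [DecidableEq κ] [Fintype κ'] [DecidableEq κ'] {X : Matrix κ κ E} {X' : Matrix κ' κ' E}
    (hX : X.det ≠ 0) (hX' : X'.det ≠ 0) (h : ∀ m : ℕ, (X ^ m).trace = (X' ^ m).trace) :
    X.det = X'.det := by
  set e := Fintype.equivFin κ
  set e' := Fintype.equivFin κ'
  set Y : ∀ b : Bool, Matrix (Fin (cond b (Fintype.card κ) (Fintype.card κ')))
      (Fin (cond b (Fintype.card κ) (Fintype.card κ'))) E := fun b =>
    match b with
    | true => Matrix.reindexAlgEquiv E E e X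
    | false => Matrix.reindexAlgEquiv E E e' X' with hY
  have ht : ∀ m : ℕ, ((Y true) ^ m).trace = (X ^ m).trace := by
    intro m
    change ((Matrix.reindexAlgEquiv E E e X) ^ m).trace = _
    rw [← map_pow]
    change (Matrix.reindex e e (X ^ m)).trace = _
    rw [trace_reindex_self]
  have hf : ∀ m : ℕ, ((Y false) ^ m).trace = (X' ^ m).trace := by
    intro m
    change ((Matrix.reindexAlgEquiv E E e' X') ^ m).trace = _
    rw [← map_pow]
    change (Matrix.reindex e' e' (X' ^ m)).trace = _
    rw [trace_reindex_self]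
  have dt : (Y true).det = X.det := Matrix.det_reindex_self e X
  have df : (Y false).det = X'.det := Matrix.det_reindex_self e' X'
  have h1 := prod_det_zpow Y (fun b => cond b 1 (-1)) (by
    intro b
    cases b
    · rw [df]; exact hX'
    · rw [dt]; exact hX) (by
    intro m
    rw [Fintype.sum_bool, ht, hf, h m]
    simp)
  rw [Fintype.prod_bool, dt, df] at h1
  have h2 : X.det * X'.det⁻¹ = 1 := by simpa using h1
  exact mul_inv_eq_one₀ hX' |>.mp h2

/-- Two representations over a domain of characteristic zero with the same character have the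
same determinants. -/
theorem det_mapRep_eq_of_trace {Γ : Type*} [Group Γ] {O : Type*} [CommRing O] [IsDomain O]
    [CharZero O] {ι : Type*} [Fintype ι] [DecidableEq ι] {κ κ' : Type*} [Fintype κ]
    [DecidableEq κ] [Fintype κ'] [DecidableEq κ'] (σ : Γ →* Matrix κ κ O)
    (σ' : Γ →* Matrix κ' κ' O) (h : ∀ g, (σ g).trace = (σ' g).trace)
    {A B : Matrix ι ι (MonoidAlgebra ℤ Γ)} (hAB : A * B = 1) :
    (mapRep σ A).det = (mapRep σ' A).det := by
  have hchar : CharZero (FractionRing O) :=
    charZero_of_injective_algebraMap (IsFractionRing.injective O (FractionRing O))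
  set s := algebraMap O (FractionRing O) with hs
  have hinj : Function.Injective s := IsFractionRing.injective O (FractionRing O)
  set τ : Γ →* Matrix κ κ (FractionRing O) :=
    (s.mapMatrix : Matrix κ κ O →+* Matrix κ κ (FractionRing O)).toMonoidHom.comp σ with hτ
  set τ' : Γ →* Matrix κ' κ' (FractionRing O) :=
    (s.mapMatrix : Matrix κ' κ' O →+* Matrix κ' κ' (FractionRing O)).toMonoidHom.comp σ' with hτ'
  have h1 : (mapRep τ A).det = s (mapRep σ A).det := by
    rw [hτ, ← mapRep_map, RingHom.map_det]; rfl
  have h2 : (mapRep τ' A).det = s (mapRep σ' A).det := by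
    rw [hτ', ← mapRep_map, RingHom.map_det]; rfl
  have h3 : ∀ g, (τ g).trace = s (σ g).trace := fun g =>
    (AddMonoidHom.map_trace s.toAddMonoidHom (σ g)).symm
  have h4 : ∀ g, (τ' g).trace = s (σ' g).trace := fun g =>
    (AddMonoidHom.map_trace s.toAddMonoidHom (σ' g)).symm
  have h5 : ((mapRep τ A).det) = ((mapRep τ' A).det) := by
    refine det_eq_of_trace_pow (isUnit_det_mapRep τ hAB).ne_zero
      (isUnit_det_mapRep τ' hAB).ne_zero fun m => ?_
    rw [← mapRep_pow, ← mapRep_pow, trace_mapRep, trace_mapRep]
    refine Finset.sum_congr rfl fun g _ => ?_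
    beta_reduce
    rw [h3, h4, h]
  apply hinj
  rw [← h1, ← h2, h5]

end Pool.Agent.Lib.MP_8f66f0_al_FinQ
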