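import Mathlib
import Pool.Agent.Lib.MP_8f66f0_al_FinQ.CH
import Pool.Agent.Lib.MP_8f66f0_al_FinQ.TwistDefs

/-! Monomial representations. -/

set_option autoImplicit false
set_option linter.unusedSectionVars false

namespace Pool.Agent.Lib.MP_8f66f0_al_FinQ

section mon

variable {Q Ω O : Type*} [Group Q] [MulAction Q Ω] [Fintype Ω] [DecidableEq Ω] [CommRing O]

/-- A multiplicative cocycle of the action of `Q` on `Ω` with values in `O`. -/
structure IsMonCocycle (θ : Q → Ω → O) : Prop where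
  one : ∀ w, θ 1 w = 1
  mul : ∀ g h w, θ (g * h) w = θ g (h • w) * θ h w

lemma IsMonCocycle.pow {θ : Q → Ω → O} (h : IsMonCocycle θ) (e : ℕ) :
    IsMonCocycle fun g w => θ g w ^ e :=
  ⟨fun w => by rw [h.one, one_pow], fun g k w => by rw [h.mul, mul_pow]⟩

/-- The monomial representation attached to a cocycle. -/
def monRep {θ : Q → Ω → O} (hθ : IsMonCocycle θ) : Q →* Matrix Ω Ω O where
  toFun g := Matrix.of fun w' w => if w' = g • w then θ g w else 0
  map_one' := by
    ext w' w
    rw [Matrix.of_apply, Matrix.one_apply, one_smul, hθ.one]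
  map_mul' g h := by
    ext w' w
    rw [Matrix.mul_apply, Finset.sum_eq_single (h • w)]
    · rw [Matrix.of_apply, Matrix.of_apply, Matrix.of_apply, if_pos rfl, hθ.mul, mul_smul]
      split_ifs
      · rfl
      · rw [zero_mul]
    · intro v _ hv
      rw [Matrix.of_apply, Matrix.of_apply, if_neg hv, mul_zero]
    · intro h'
      exact absurd (Finset.mem_univ _) h'

lemma monRep_apply {θ : Q → Ω → O} (hθ : IsMonCocycle θ) (g : Q) (w' w : Ω) :
    monRep hθ g w' w = if w' = g • w then θ g w else 0 := rfl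

lemma trace_monRep {θ : Q → Ω → O} (hθ : IsMonCocycle θ) (g : Q) :
    (monRep hθ g).trace = ∑ w, if w = g • w then θ g w else 0 := rfl

end mon

section induced

variable {Q K : Type*} [Group Q] [CommRing K] (B : Subgroup Q) (ψ : B →* K)

lemma out_mem (g : Q) (w : Q ⧸ B) : (g • w).out⁻¹ * g * w.out ∈ B := by
  have h1 : (((g • w).out : Q) : Q ⧸ B) = ((g * w.out : Q) : Q ⧸ B) := by
    rw [QuotientGroup.out_eq']
    conv_lhs => rw [← QuotientGroup.out_eq' w]
    rfl
  have h2 := QuotientGroup.eq.mp h1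
  rwa [← mul_assoc] at h2

/-- The cocycle on `Q ⧸ B` attached to a character of `B` and the section `Quotient.out`. -/
noncomputable def indCocycle (g : Q) (w : Q ⧸ B) : K :=
  ψ ⟨(g • w).out⁻¹ * g * w.out, out_mem B g w⟩

lemma indCocycle_isMonCocycle : IsMonCocycle (indCocycle B ψ) := by
  constructor
  · intro w
    unfold indCocycle
    rw [← map_one ψ]
    congr 1
    apply Subtype.ext
    change (((1 : Q) • w).out)⁻¹ * 1 * w.out = 1
    rw [one_smul, mul_one, inv_mul_cancel]
  · intro g h w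
    unfold indCocycle
    rw [← map_mul]
    congr 1
    apply Subtype.ext
    change (((g * h) • w).out)⁻¹ * (g * h) * w.out =
      ((g • h • w).out⁻¹ * g * (h • w).out) * ((h • w).out⁻¹ * h * w.out)
    rw [mul_smul]
    group

lemma indCocycle_pow {m : ℕ} (hm : ∀ b : B, ψ b ^ m = 1) (g : Q) (w : Q ⧸ B) :
    indCocycle B ψ g w ^ m = 1 := hm _

open Classical in
/-- The trace of the monomial representation attached to a character. -/
lemma trace_ind [Fintype (Q ⧸ B)] (x : Q) :
    (monRep (indCocycle_isMonCocycle B ψ) x).trace =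
      ∑ w : Q ⧸ B, if h : w.out⁻¹ * x * w.out ∈ B then ψ ⟨_, h⟩ else 0 := by
  rw [trace_monRep]
  refine Finset.sum_congr rfl fun w _ => ?_
  by_cases h : w.out⁻¹ * x * w.out ∈ B
  · have hw : w = x • w := by
      have h1 : ((w.out : Q) : Q ⧸ B) = ((x * w.out : Q) : Q ⧸ B) := by
        rw [QuotientGroup.eq, ← mul_assoc]
        exact h
      conv_lhs => rw [← QuotientGroup.out_eq' w, h1]
      conv_rhs => rw [← QuotientGroup.out_eq' w]
      rfl
    rw [dif_pos h, if_pos hw]
    unfold indCocycle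
    congr 1
    apply Subtype.ext
    change (x • w).out⁻¹ * x * w.out = w.out⁻¹ * x * w.out
    rw [← hw]
  · have hw : w ≠ x • w := by
      intro hw
      apply h
      have h1 := out_mem B x w
      rwa [← hw] at h1
    rw [dif_neg h, if_neg hw]

end induced

section artin

open Classical in
lemma exists_up (S : Type*) [Fintype S] [PartialOrder S] :
    ∃ m : S → ℤ, ∀ C : S, ∑ B : S, (if C ≤ B then m B else 0) = 1 := by
  have hwf : WellFounded ((· > ·) : S → S → Prop) := wellFounded_gt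
  set m : S → ℤ := hwf.fix (fun C ih => 1 - ∑ B : {B : S // C < B}, ih B.1 B.2) with hm
  have hm1 : ∀ C : S, m C = 1 - ∑ B : {B : S // C < B}, m B.1 := by
    intro C
    rw [hm, hwf.fix_eq]
  refine ⟨m, fun C => ?_⟩
  have h2 : ∑ B : {B : S // C < B}, m B.1 = ∑ B : S, if C < B then m B else 0 := by
    rw [← Finset.sum_filter]
    exact (Finset.sum_subtype (Finset.univ.filter fun B => C < B) (by simp) m).symm
  have h3 : ∑ B : S, (if C ≤ B then m B else 0) =
      (∑ B : S, if C < B then m B else 0) + ∑ B : S, if B = C then m B else 0 := by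
    rw [← Finset.sum_add_distrib]
    refine Finset.sum_congr rfl fun B _ => ?_
    by_cases hB : B = C
    · subst hB
      rw [if_pos le_rfl, if_neg (lt_irrefl _), if_pos rfl, zero_add]
    · by_cases hlt : C < B
      · rw [if_pos hlt.le, if_pos hlt, if_neg hB, add_zero]
      · rw [if_neg (fun h => hlt (lt_of_le_of_ne h (Ne.symm hB))), if_neg hlt,
          if_neg hB, add_zero]
  rw [h3, Finset.sum_ite_eq' Finset.univ C, if_pos (Finset.mem_univ _), hm1 C, h2]
  ring

open Classical in
/-- Integers on the cyclic subgroups whose sum over the cyclic subgroups containing any given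
element is one. -/
theorem exists_artin (Q : Type*) [Group Q] [Fintype {B : Subgroup Q // IsCyclic B}] :
    ∃ m : {B : Subgroup Q // IsCyclic B} → ℤ, ∀ x : Q,
      ∑ B : {B : Subgroup Q // IsCyclic B}, (if x ∈ B.1 then m B else 0) = 1 := by
  obtain ⟨m, hm⟩ := exists_up {B : Subgroup Q // IsCyclic B}
  refine ⟨m, fun x => ?_⟩
  rw [← hm ⟨Subgroup.zpowers x, inferInstance⟩]
  refine Finset.sum_congr rfl fun B _ => ?_
  have h1 : x ∈ B.1 ↔ (⟨Subgroup.zpowers x, inferInstance⟩ : {B : Subgroup Q // IsCyclic B}) ≤ B := by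
    rw [← Subtype.coe_le_coe]
    exact (Subgroup.zpowers_le).symm
  by_cases h : x ∈ B.1
  · rw [if_pos h, if_pos (h1.mp h)]
  · rw [if_neg h, if_neg (fun h' => h (h1.mpr h'))]

end artin

section characters

variable {Q : Type*} [Group Q]

lemma out_conj_mem (B : Subgroup Q) (x y : Q) :
    (y : Q ⧸ B).out⁻¹ * x * (y : Q ⧸ B).out ∈ B ↔ y⁻¹ * x * y ∈ B := by
  obtain ⟨b, hb⟩ := QuotientGroup.mk_out_eq_mul B y
  rw [hb]
  have e : (y * (b : Q))⁻¹ * x * (y * b) = (b : Q)⁻¹ * (y⁻¹ * x * y) * b := by group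
  rw [e]
  constructor
  · intro h
    have h2 := B.mul_mem (B.mul_mem b.2 h) (B.inv_mem b.2)
    have e2 : (b : Q) * ((b : Q)⁻¹ * (y⁻¹ * x * y) * b) * (b : Q)⁻¹ = y⁻¹ * x * y := by group
    rwa [e2] at h2
  · intro h
    exact B.mul_mem (B.mul_mem (B.inv_mem b.2) h) b.2

/-- The number of elements conjugating `x` into `B`. -/
lemma card_conj (B : Subgroup Q) (x : Q) :
    Nat.card {y : Q | y⁻¹ * x * y ∈ B} =
      Nat.card B * Nat.card {w : Q ⧸ B | w.out⁻¹ * x * w.out ∈ B} := by
  rw [← QuotientGroup.card_preimage_mk]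
  have : {y : Q | y⁻¹ * x * y ∈ B} = QuotientGroup.mk ⁻¹' {w : Q ⧸ B | w.out⁻¹ * x * w.out ∈ B} := by
    ext y
    simp only [Set.mem_ofPred_eq, Set.mem_preimage]
    exact (out_conj_mem B x y).symm
  rw [this]

open Classical in
lemma card_conj' [Fintype Q] (B : Subgroup Q) [Fintype (Q ⧸ B)] (x : Q) :
    (∑ y : Q, if y⁻¹ * x * y ∈ B then (1 : ℤ) else 0) =
      (Nat.card B : ℤ) * ∑ w : Q ⧸ B, if w.out⁻¹ * x * w.out ∈ B then (1 : ℤ) else 0 := by
  have h := card_conj B x
  have h1 : ∀ {α : Type _} [Fintype α] (P : α → Prop),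
      (∑ y : α, if P y then (1 : ℤ) else 0) = (Nat.card {y : α | P y} : ℤ) := by
    intro α _ P
    rw [Finset.sum_boole, Nat.card_eq_card_toFinset]
    congr 2
    ext y
    simp
  rw [h1, h1, h]
  push_cast
  rfl

variable [Finite Q]

/-- The restriction of a character to a cyclic subgroup is a sum of linear characters. -/
lemma exists_characters {K : Type*} [Field K] [IsAlgClosed K] {κ : Type*} [Fintype κ]
    [DecidableEq κ] (β : Q →* Matrix κ κ K) (B : Subgroup Q) [IsCyclic B] :
    ∃ ψ : Fin (Fintype.card κ) → (B →* K), (∀ j b, ψ j b ^ (Nat.card Q) = 1) ∧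
      ∀ b : B, (β b).trace = ∑ j, ψ j b := by
  obtain ⟨b0, hb0⟩ := IsCyclic.exists_generator (α := B)
  set X := β b0 with hX
  obtain ⟨l, hl⟩ : ∃ l : List K, (l : Multiset K) = X.charpoly.roots := Quot.exists_rep _
  have hlen : l.length = Fintype.card κ := by
    rw [← card_roots_charpoly X, ← hl]; rfl
  obtain ⟨f, hf⟩ : ∃ f : Fin (Fintype.card κ) → K, List.ofFn f = l := by
    refine ⟨fun i => l.get (i.cast hlen.symm), ?_⟩
    apply List.ext_get
    · simp [hlen]
    · intro i h1 h2
      simp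
  have hpow : ∀ m : ℕ, (X ^ m).trace = ∑ j, f j ^ m := by
    intro m
    rw [trace_pow_eq, ← hl, ← hf, Multiset.map_coe, Multiset.sum_coe, List.map_ofFn,
      List.sum_ofFn]
    rfl
  have hroot : ∀ j, f j ^ orderOf b0 = 1 := by
    intro j
    have h1 : X ^ orderOf b0 = 1 := by
      rw [hX, ← map_pow, ← Subgroup.coe_pow, pow_orderOf_eq_one, Subgroup.coe_one, map_one]
    have h2 := roots_charpoly_pow X (orderOf b0)
    have h3 : (1 : Matrix κ κ K).charpoly.roots = Multiset.replicate (Fintype.card κ) 1 := by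
      have := roots_charpoly_pow (1 : Matrix κ κ K) 0
      rw [pow_zero] at this
      rw [this]
      simp only [pow_zero]
      rw [Multiset.map_const', card_roots_charpoly]
    rw [h1, h3] at h2
    have h4 : f j ^ orderOf b0 ∈ X.charpoly.roots.map fun y => y ^ orderOf b0 := by
      refine Multiset.mem_map_of_mem _ ?_
      rw [← hl, ← hf, Multiset.mem_coe, List.mem_ofFn']
      exact ⟨j, rfl⟩
    rw [← h2] at h4
    exact Multiset.eq_of_mem_replicate h4
  have hpos : 0 < orderOf b0 := orderOf_pos b0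
  have hne : ∀ j, f j ≠ 0 := fun j h0 => by
    have := hroot j
    rw [h0, zero_pow hpos.ne'] at this
    exact zero_ne_one this
  have hdvd : ∀ j, orderOf (Units.mk0 (f j) (hne j)) ∣ orderOf b0 := by
    intro j
    refine orderOf_dvd_of_pow_eq_one (Units.ext ?_)
    rw [Units.val_pow_eq_pow_val, Units.val_mk0, hroot j, Units.val_one]
  set ψ : Fin (Fintype.card κ) → (B →* K) := fun j =>
    (Units.coeHom K).comp (monoidHomOfForallMemZpowers hb0 (hdvd j)) with hψ
  have hψ0 : ∀ j, ψ j b0 = f j := by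
    intro j
    rw [hψ]
    change ((monoidHomOfForallMemZpowers hb0 (hdvd j) b0 : Kˣ) : K) = f j
    rw [monoidHomOfForallMemZpowers_apply_gen]
    rfl
  refine ⟨ψ, ?_, ?_⟩
  · intro j b
    have h1 : b ^ Nat.card Q = 1 := by
      apply Subtype.ext
      rw [Subgroup.coe_pow, pow_card_eq_one', Subgroup.coe_one]
    rw [← map_pow, h1, map_one]
  · intro b
    obtain ⟨i, rfl⟩ := (mem_powers_iff_mem_zpowers.mpr (hb0 b) : b ∈ Submonoid.powers b0)
    beta_reduce
    rw [Subgroup.coe_pow, map_pow, ← hX, hpow]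
    refine Finset.sum_congr rfl fun j _ => ?_
    rw [map_pow, hψ0]

end characters

section reduction

variable {Γ Q K : Type*} [Group Γ] [Group Q] [Field K]

/-- A representation by matrices indexed by `Fin`. -/
noncomputable def finRep {Ω : Type*} [Fintype Ω] [DecidableEq Ω] (σ : Q →* Matrix Ω Ω K) :
    Q →* Matrix (Fin (Fintype.card Ω)) (Fin (Fintype.card Ω)) K :=
  ((Matrix.reindexAlgEquiv K K (Fintype.equivFin Ω)).toAlgHom.toRingHom.toMonoidHom).comp σ

lemma trace_finRep {Ω : Type*} [Fintype Ω] [DecidableEq Ω] (σ : Q →* Matrix Ω Ω K) (g : Q) :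
    (finRep σ g).trace = (σ g).trace :=
  trace_reindex_self (Fintype.equivFin Ω) (σ g)

open Classical in
/-- Artin induction: the determinants of a representation of a finite group are roots of unity if
those of the monomial representations induced from cyclic subgroups are. -/
theorem artin_reduction [Finite Q] [IsAlgClosed K] [CharZero K] (π : Γ →* Q) {κ : Type*}
    [Fintype κ] [DecidableEq κ] (β : Q →* Matrix κ κ K) {ι : Type*} [Fintype ι] [DecidableEq ι]
    {A B : Matrix ι ι (MonoidAlgebra ℤ Γ)} (hAB : A * B = 1)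
    (hmon : ∀ (C : Subgroup Q) [Fintype (Q ⧸ C)] (ψ : C →* K), (∀ c, ψ c ^ (Nat.card Q) = 1) →
      ∃ N : ℕ, 0 < N ∧
        (mapRep ((monRep (indCocycle_isMonCocycle C ψ)).comp π) A).det ^ N = 1) :
    ∃ N : ℕ, 0 < N ∧ (mapRep (β.comp π) A).det ^ N = 1 := by
  have : Fintype Q := Fintype.ofFinite Q
  have hft : ∀ C : Subgroup Q, Fintype (Q ⧸ C) := fun C => Fintype.ofFinite _
  set S := {C : Subgroup Q // IsCyclic C} with hS
  obtain ⟨m, hm⟩ := exists_artin Q
  have hψ : ∀ C : S, ∃ ψ : Fin (Fintype.card κ) → (C.1 →* K),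
      (∀ j b, ψ j b ^ (Nat.card Q) = 1) ∧ ∀ b : C.1, (β b).trace = ∑ j, ψ j b := fun C => by
    have := C.2
    exact exists_characters β C.1
  choose ψ hψ1 hψ2 using hψ
  -- the representations
  set M : ∀ (C : S) (_ : Fin (Fintype.card κ)), Q →* Matrix (Q ⧸ C.1) (Q ⧸ C.1) K :=
    fun C j => monRep (indCocycle_isMonCocycle C.1 (ψ C j)) with hM
  have hMN : ∀ (C : S) (j : Fin (Fintype.card κ)), ∃ N : ℕ, 0 < N ∧
      (mapRep ((M C j).comp π) A).det ^ N = 1 := fun C j => hmon C.1 (ψ C j) (hψ1 C j)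
  choose N hN0 hN1 using hMN
  set J := Option (S × Fin (Fintype.card κ)) with hJ
  set k : J → ℕ := fun x => x.elim (Fintype.card κ) fun y => Fintype.card (Q ⧸ y.1.1) with hk
  set σ : ∀ x : J, Q →* Matrix (Fin (k x)) (Fin (k x)) K := fun x =>
    match x with
    | none => finRep β
    | some y => finRep (M y.1 y.2) with hσ
  set a : J → ℤ := fun x => x.elim (-(Fintype.card Q : ℤ)) fun y => m y.1 * (Nat.card y.1.1 : ℤ)
    with ha
  have htrM : ∀ (C : S) (x : Q), ∑ j, (M C j x).trace =
      (β x).trace * ∑ w : Q ⧸ C.1, if w.out⁻¹ * x * w.out ∈ C.1 then (1 : K) else 0 := by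
    intro C x
    have h1 : ∀ j, (M C j x).trace = ∑ w : Q ⧸ C.1,
        if h : w.out⁻¹ * x * w.out ∈ C.1 then ψ C j ⟨_, h⟩ else 0 :=
      fun j => trace_ind C.1 (ψ C j) x
    rw [Finset.sum_congr rfl fun j _ => h1 j, Finset.sum_comm, Finset.mul_sum]
    refine Finset.sum_congr rfl fun w _ => ?_
    by_cases h : w.out⁻¹ * x * w.out ∈ C.1
    · rw [if_pos h, mul_one, Finset.sum_congr rfl fun j _ => dif_pos h]
      rw [← hψ2 C ⟨_, h⟩]
      have e : w.out⁻¹ * x * w.out = w.out⁻¹ * x * (w.out⁻¹)⁻¹ := by rw [inv_inv]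
      change (β (w.out⁻¹ * x * w.out)).trace = _
      exact (trace_isConj β (isConj_iff.mpr ⟨w.out⁻¹, e.symm⟩)).symm
    · rw [if_neg h, mul_zero, Finset.sum_congr rfl fun j _ => dif_neg h, Finset.sum_const_zero]
  have hsum : ∀ x : Q, ∑ C : S, ((m C : K) * (Nat.card C.1 : K)) *
      (∑ w : Q ⧸ C.1, if w.out⁻¹ * x * w.out ∈ C.1 then (1 : K) else 0) = (Fintype.card Q : K) := by
    intro x
    have h1 : ∀ C : S, ((m C : K) * (Nat.card C.1 : K)) *
        (∑ w : Q ⧸ C.1, if w.out⁻¹ * x * w.out ∈ C.1 then (1 : K) else 0) =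
        ∑ y : Q, ((if y⁻¹ * x * y ∈ C.1 then m C else 0 : ℤ) : K) := by
      intro C
      have h2 := congrArg (Int.cast : ℤ → K) (card_conj' C.1 x)
      push_cast at h2
      rw [mul_assoc, ← h2, Finset.mul_sum]
      refine Finset.sum_congr rfl fun y _ => ?_
      split_ifs <;> simp
    rw [Finset.sum_congr rfl fun C _ => h1 C, Finset.sum_comm]
    have h3 : ∀ y : Q, ∑ C : S, ((if y⁻¹ * x * y ∈ C.1 then m C else 0 : ℤ) : K) = 1 := by
      intro y
      rw [← Int.cast_sum, hm (y⁻¹ * x * y), Int.cast_one]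
    rw [Finset.sum_congr rfl fun y _ => h3 y]
    simp
  have key := prod_det_mapRep (fun x => (σ x).comp π) a (by
    intro g
    rw [Fintype.sum_option, Fintype.sum_prod_type]
    have h1 : (((σ none).comp π) g).trace = (β (π g)).trace := trace_finRep β (π g)
    have h2 : ∀ (C : S) (j : Fin (Fintype.card κ)),
        (((σ (some (C, j))).comp π) g).trace = (M C j (π g)).trace := fun C j =>
      trace_finRep (M C j) (π g)
    have h3 : ∀ C ∈ Finset.univ, ∑ j, (a (some (C, j)) : K) *
        (((σ (some (C, j))).comp π) g).trace = (((m C : K) * (Nat.card C.1 : K)) *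
        (∑ w : Q ⧸ C.1, if w.out⁻¹ * (π g) * w.out ∈ C.1 then (1 : K) else 0)) *
          (β (π g)).trace := by
      intro C _
      have h4 : ∀ j ∈ Finset.univ, (a (some (C, j)) : K) *
          (((σ (some (C, j))).comp π) g).trace =
          ((m C : K) * (Nat.card C.1 : K)) * (M C j (π g)).trace := by
        intro j _
        rw [h2]
        congr 1
        change ((m C * (Nat.card C.1 : ℤ) : ℤ) : K) = _
        push_cast
        rfl
      rw [Finset.sum_congr rfl h4, ← Finset.mul_sum, htrM]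
      ring
    rw [h1, Finset.sum_congr rfl h3, ← Finset.sum_mul, hsum]
    change ((-(Fintype.card Q : ℤ) : ℤ) : K) * _ + _ = 0
    push_cast
    ring) hAB
  rw [Fintype.prod_option] at key
  have hd0 : (mapRep ((σ none).comp π) A).det = (mapRep (β.comp π) A).det :=
    det_mapRep_eq_of_trace _ _ (fun g => trace_finRep β (π g)) hAB
  have hd1 : ∀ y : S × Fin (Fintype.card κ), (mapRep ((σ (some y)).comp π) A).det =
      (mapRep ((M y.1 y.2).comp π) A).det := fun y =>
    det_mapRep_eq_of_trace _ _ (fun g => trace_finRep (M y.1 y.2) (π g)) hAB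
  set d := (mapRep (β.comp π) A).det with hd
  have hdne : d ≠ 0 := (isUnit_det_mapRep (β.comp π) hAB).ne_zero
  set P := ∏ y : S × Fin (Fintype.card κ), N y.1 y.2 with hP
  have hP0 : 0 < P := Finset.prod_pos fun y _ => hN0 y.1 y.2
  have h5 : ∀ y : S × Fin (Fintype.card κ),
      (mapRep ((M y.1 y.2).comp π) A).det ^ P = 1 := by
    intro y
    obtain ⟨c, hc⟩ := Finset.dvd_prod_of_mem (fun y : S × Fin (Fintype.card κ) => N y.1 y.2)
      (Finset.mem_univ y)
    rw [hP, hc, pow_mul, hN1, one_pow]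
  refine ⟨Fintype.card Q * P, Nat.mul_pos Fintype.card_pos hP0, ?_⟩
  have h6 := congrArg (fun z => z ^ P) key
  simp only [mul_pow, ← Finset.prod_pow, one_pow] at h6
  have h7 : ∀ y ∈ Finset.univ, ((mapRep ((σ (some y)).comp π) A).det ^ a (some y)) ^ P =
      1 := by
    intro y _
    rw [← zpow_natCast, ← zpow_mul, mul_comm, zpow_mul, zpow_natCast, hd1 y, h5 y, one_zpow]
  rw [Finset.prod_congr rfl h7, Finset.prod_const_one, mul_one, hd0] at h6
  have h8 : (d ^ (-(Fintype.card Q : ℤ))) ^ P = 1 := h6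
  rw [zpow_neg, inv_pow, inv_eq_one, zpow_natCast, ← pow_mul] at h8
  exact h8

end reduction

end Pool.Agent.Lib.MP_8f66f0_al_FinQ
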