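import Mathlib
import Pool.Agent.Lib.MP_8f66f0_al_FinQ.Abs
import Pool.Agent.Lib.MP_8f66f0_al_FinQ.Pair
import Pool.Agent.Lib.MP_8f66f0_al_FinQ.TwistDefs

/-! Determinants of matrices congruent to one modulo `p ^ 2`. -/

set_option autoImplicit false
set_option linter.unusedSectionVars false

namespace Pool.Agent.Lib.MP_8f66f0_al_FinQ

open Pool.Agent.Lib.MP_8f66f0_al_Dennis

section eval

variable {Γ : Type*} [Group Γ] {S O : Type*} [CommRing S] [CommRing O] [Algebra S O]
  {ι κ : Type*} [Fintype ι] [DecidableEq ι] [Fintype κ] [DecidableEq κ]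

/-- The homomorphism from the group ring to matrices attached to a representation. -/
noncomputable def evalHom (S : Type*) [CommRing S] [Algebra S O] (σ : Γ →* Matrix κ κ O) :
    MonoidAlgebra S Γ →ₐ[S] Matrix κ κ O :=
  MonoidAlgebra.lift S (Matrix κ κ O) Γ σ

lemma evalHom_single (σ : Γ →* Matrix κ κ O) (g : Γ) (a : S) :
    evalHom S σ (MonoidAlgebra.single g a) = a • σ g := by
  rw [evalHom, MonoidAlgebra.lift_single]

/-- The image of a matrix over a group ring under a representation of the group. -/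
noncomputable def evalMat (S : Type*) [CommRing S] [Algebra S O] (σ : Γ →* Matrix κ κ O) :
    Matrix ι ι (MonoidAlgebra S Γ) →+* Matrix (ι × κ) (ι × κ) O :=
  (Matrix.compRingEquiv ι κ O).toRingHom.comp (evalHom S σ).toRingHom.mapMatrix

lemma evalMat_apply (σ : Γ →* Matrix κ κ O) (X : Matrix ι ι (MonoidAlgebra S Γ))
    (x y : ι × κ) : evalMat S σ X x y = evalHom S σ (X x.1 y.1) x.2 y.2 := rfl

lemma trace_evalHom (σ : Γ →* Matrix κ κ O) (x : MonoidAlgebra O Γ) :
    Matrix.trace (evalHom O σ x) = lin (fun g => Matrix.trace (σ g)) x := by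
  induction x using MonoidAlgebra.induction_linear with
  | zero => simp
  | add x y hx hy => rw [map_add, map_add, Matrix.trace_add, hx, hy]
  | single g a => rw [evalHom_single, lin_single, Matrix.trace_smul, smul_eq_mul]

lemma trace_evalMat (σ : Γ →* Matrix κ κ O) (X : Matrix ι ι (MonoidAlgebra O Γ)) :
    Matrix.trace (evalMat O σ X) = lin (fun g => Matrix.trace (σ g)) (Matrix.trace X) := by
  have h : evalHom O σ (Matrix.trace X) = ∑ i, evalHom O σ (X i i) := map_sum _ _ _
  rw [← trace_evalHom, h, Matrix.trace_sum, Matrix.trace, Fintype.sum_prod_type]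
  rfl

end eval

section main

variable {Γ : Type*} [Group Γ] {O : Type*} [CommRing O] [IsDomain O] [CharZero O]
  {ι : Type*} [Fintype ι] [DecidableEq ι]

open Classical in
/-- The trace of a representation which is trivial on undetected elements is, up to something
divisible by `q`, the dimension times the sum of the coefficients at undetected elements. -/
lemma dvd_trace_sub {κ : Type*} [Fintype κ] [DecidableEq κ] {q : O}
    {X : Matrix ι ι (MonoidAlgebra O Γ)}
    (hX : ∀ c : Γ, Detected c → q ∣ mtr (lin (ind O c)) X)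
    (σ : Γ →* Matrix κ κ O) (hσ : ∀ g, ¬ Detected g → σ g = 1) :
    q ∣ Matrix.trace (evalMat O σ X) -
      (Fintype.card κ : O) * lin (fun g => if Detected g then 0 else 1) (Matrix.trace X) := by
  have h1 : Matrix.trace (evalMat O σ X) -
      (Fintype.card κ : O) * lin (fun g => if Detected g then 0 else 1) (Matrix.trace X) =
      lin (fun g => if Detected g then Matrix.trace (σ g) else 0) (Matrix.trace X) := by
    rw [trace_evalMat, lin_apply, lin_apply, lin_apply, Finsupp.sum, Finsupp.sum, Finsupp.sum,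
      Finset.mul_sum, ← Finset.sum_sub_distrib]
    refine Finset.sum_congr rfl fun g _ => ?_
    by_cases hg : Detected g
    · rw [if_pos hg, if_pos hg]; ring
    · rw [if_neg hg, if_neg hg, hσ g hg, Matrix.trace_one]; ring
  rw [h1]
  refine dvd_lin_of_class (fun c hc => hX c hc) ?_ ?_
  · intro g h hgh
    by_cases hg : Detected g
    · rw [if_pos hg, if_pos (hg.of_isConj hgh), trace_isConj σ hgh]
    · rw [if_neg hg, if_neg (fun h' => hg (h'.of_isConj hgh.symm))]
  · intro g hg
    rw [if_neg hg]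

lemma pow_one_add_mod {q e : O} (y c : O) (he : e ∣ q ^ 2) (k : ℕ) :
    ∃ d : O, (1 + q * y + e * c) ^ k = 1 + (k : O) * (q * y) + e * d := by
  obtain ⟨f, hf⟩ := he
  induction k with
  | zero => exact ⟨0, by simp⟩
  | succ k ih =>
    obtain ⟨d, hd⟩ := ih
    refine ⟨(k : O) * f * y * y + c * (1 + (k : O) * (q * y) + e * d) + d * (1 + q * y), ?_⟩
    rw [pow_succ, hd]
    push_cast
    have : (1 + (k : O) * (q * y) + e * d) * (1 + q * y + e * c) =
        1 + ((k : O) + 1) * (q * y) + (k : O) * q ^ 2 * (y * y) +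
        e * (c * (1 + (k : O) * (q * y) + e * d) + d * (1 + q * y)) := by ring
    rw [this, hf]
    ring

open Classical in
/-- The main estimate. -/
lemma det_pow_estimate {p : ℕ} (hp : p.Prime)
    {X X' : Matrix ι ι (MonoidAlgebra O Γ)} (hX' : X' * X = 1)
    (h0 : ∀ (c : Γ) (δ : Γ → Γ → ℤ), IsClassCocycle c δ → δ c c ≠ 0 →
      mbil (bil (psi O c δ)) X' X = 0)
    {Z : ℕ → Matrix ι ι (MonoidAlgebra O Γ)}
    (hZ1 : ∀ r, X ^ (p ^ r) = 1 + (p ^ (r + 2)) • Z r)
    (hZ2 : ∀ r, ∃ V, Z (r + 1) = Z r + (p ^ (r + 1)) • V)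
    {κ : Type*} [Fintype κ] [DecidableEq κ]
    (σ : Γ →* Matrix κ κ O) (hσ : ∀ g, ¬ Detected g → σ g = 1) (r : ℕ) :
    ∃ c : O, (evalMat O σ X).det ^ (p ^ r) =
      1 + (p : O) ^ (r + 2) * ((Fintype.card κ : O) *
        lin (fun g => if Detected g then 0 else 1) (Matrix.trace (Z r))) +
        (p : O) ^ (2 * r + 3) * c := by
  have hτ : ∀ (c : Γ), Detected c → (p : O) ^ (r + 1) ∣ mtr (lin (ind O c)) (Z r) := by
    intro c hc
    obtain ⟨δ, hδ, hne⟩ := hc
    exact tau_dvd hp (φ := mbil (bil (psi O c δ))) (τ := mtr (lin (ind O c))) (d := δ c c) hne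
      (fun x y z => mbil_cocycle (bil_psi_cocycle hδ) x y z)
      (fun y => mbil_one (bil_psi_one hδ) y) hX' (h0 c δ hδ hne) hZ1 hZ2 r
  have h1 : (evalMat O σ X).det ^ (p ^ r) =
      (1 + (p ^ (r + 2)) • evalMat O σ (Z r)).det := by
    rw [← Matrix.det_pow, ← map_pow, hZ1, map_add, map_one, map_nsmul]
  obtain ⟨c1, hc1⟩ := det_one_add_nsmul (p ^ (r + 2)) (evalMat O σ (Z r))
  obtain ⟨c2, hc2⟩ := dvd_trace_sub hτ σ hσ
  refine ⟨c2 + (p : O) * c1, ?_⟩
  rw [h1, hc1]
  have h2 : Matrix.trace (evalMat O σ (Z r)) =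
      (Fintype.card κ : O) *
        lin (fun g => if Detected g then 0 else 1) (Matrix.trace (Z r)) +
      (p : O) ^ (r + 1) * c2 := by
    rw [← hc2]; ring
  rw [h2]
  push_cast
  ring

/-- Lemma M. Let `X` be congruent to one modulo `p ^ 2` and such that all cocycle pairings of its
inverse and `X` vanish. Then the determinants of the images of `X` under any two representations
which are trivial on undetected elements agree up to the dimensions. -/
theorem det_eq_of_pairings {p : ℕ} (hp : p.Prime) (hO : PSep O p)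
    {X X' Z0 : Matrix ι ι (MonoidAlgebra O Γ)} (hX : X = 1 + (p ^ 2) • Z0) (hX' : X' * X = 1)
    (h0 : ∀ (c : Γ) (δ : Γ → Γ → ℤ), IsClassCocycle c δ → δ c c ≠ 0 →
      mbil (bil (psi O c δ)) X' X = 0)
    {κ κ' : Type*} [Fintype κ] [DecidableEq κ] [Fintype κ'] [DecidableEq κ']
    (σ : Γ →* Matrix κ κ O) (hσ : ∀ g, ¬ Detected g → σ g = 1)
    (σ' : Γ →* Matrix κ' κ' O) (hσ' : ∀ g, ¬ Detected g → σ' g = 1) :
    (evalMat O σ X).det ^ (Fintype.card κ') = (evalMat O σ' X).det ^ (Fintype.card κ) := by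
  classical
  obtain ⟨Z, -, hZ1, hZ2⟩ := exists_seq p hX
  set w : ℕ → O := fun r =>
    lin (fun g => if Detected g then 0 else 1) (Matrix.trace (Z r)) with hw
  have est := det_pow_estimate hp hX' h0 hZ1 hZ2 σ hσ
  have est' := det_pow_estimate hp hX' h0 hZ1 hZ2 σ' hσ'
  set a := (evalMat O σ X).det with ha
  set b := (evalMat O σ' X).det with hb
  have hone : ∀ (u : O) (k : ℕ), (∃ c : O, u ^ (p ^ 0) =
      1 + (p : O) ^ (0 + 2) * ((k : O) * w 0) + (p : O) ^ (2 * 0 + 3) * c) →
      ∀ m : ℕ, (p : O) ^ 2 ∣ u ^ m - 1 := by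
    intro u k hu m
    have h1 : (p : O) ^ 2 ∣ u - 1 := by
      obtain ⟨c, hc⟩ := hu
      rw [pow_zero, pow_one] at hc
      refine ⟨(k : O) * w 0 + (p : O) * c, ?_⟩
      rw [hc]; ring
    exact h1.trans (by simpa using sub_dvd_pow_sub_pow u 1 m)
  refine eq_of_close hp hO (hone a _ (est 0) _) (hone b _ (est' 0) _) fun r => ?_
  have hq : (p : O) ^ (2 * r + 3) ∣ ((p : O) ^ (r + 2)) ^ 2 := by
    rw [← pow_mul]; exact pow_dvd_pow _ (by omega)
  obtain ⟨c, hc⟩ := est r
  obtain ⟨c', hc'⟩ := est' r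
  obtain ⟨d, hd⟩ := pow_one_add_mod ((Fintype.card κ : O) * w r) c hq (Fintype.card κ')
  obtain ⟨d', hd'⟩ := pow_one_add_mod ((Fintype.card κ' : O) * w r) c' hq (Fintype.card κ)
  refine ⟨d - d', ?_⟩
  have e1 : (a ^ Fintype.card κ') ^ p ^ r = (a ^ p ^ r) ^ Fintype.card κ' := by
    rw [← pow_mul, ← pow_mul, mul_comm]
  have e2 : (b ^ Fintype.card κ) ^ p ^ r = (b ^ p ^ r) ^ Fintype.card κ := by
    rw [← pow_mul, ← pow_mul, mul_comm]
  rw [e1, e2, hc, hc', hd, hd']
  ring

end main

end Pool.Agent.Lib.MP_8f66f0_al_FinQ
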