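import Mathlib
import Pool.Agent.Lib.MP_8f66f0_al_FinQ.LemmaM

/-! Matrices over the integral group ring twisted by a representation. -/

set_option autoImplicit false
set_option linter.unusedSectionVars false

namespace Pool.Agent.Lib.MP_8f66f0_al_FinQ

open Pool.Agent.Lib.MP_8f66f0_al_Dennis

section twist

variable {Γ : Type*} [Group Γ] {O : Type*} [CommRing O]
  {ι κ κ' : Type*} [Fintype ι] [DecidableEq ι] [Fintype κ] [DecidableEq κ] [Fintype κ']
  [DecidableEq κ']

lemma trace_tens (β : Γ →* Matrix κ κ O) (σ : Γ →* Matrix κ' κ' O) (g : Γ) :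
    Matrix.trace (tens β σ g) = Matrix.trace (β g) * Matrix.trace (σ g) :=
  Matrix.trace_kronecker _ _

lemma evalHom_twHom (β : Γ →* Matrix κ κ O) (σ : Γ →* Matrix κ' κ' O)
    (x : MonoidAlgebra ℤ Γ) (b b' : κ) (a a' : κ') :
    evalHom O σ (twHom β x b b') a a' = evalHom ℤ (tens β σ) x (b, a) (b', a') := by
  induction x using MonoidAlgebra.induction_linear with
  | zero => simp
  | add x y hx hy =>
    rw [map_add, map_add, Matrix.add_apply, Matrix.add_apply, map_add, Matrix.add_apply, hx, hy]
  | single g m =>
    rw [twHom_single, evalHom_single, Matrix.smul_apply, Matrix.smul_apply, map_zsmul,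
      Matrix.smul_apply, twMon_apply, evalHom_single, Matrix.smul_apply, tens_apply, smul_eq_mul]

lemma evalMat_twist (β : Γ →* Matrix κ κ O) (σ : Γ →* Matrix κ' κ' O)
    (A : Matrix ι ι (MonoidAlgebra ℤ Γ)) :
    (evalMat O σ (twist β A)).det = (evalMat ℤ (tens β σ) A).det := by
  have h : evalMat O σ (twist β A) =
      (evalMat ℤ (tens β σ) A).submatrix (Equiv.prodAssoc ι κ κ') (Equiv.prodAssoc ι κ κ') := by
    ext x y
    rw [evalMat_apply, Matrix.submatrix_apply, evalMat_apply, twist_apply, evalHom_twHom]
    rfl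
  rw [h, Matrix.det_submatrix_equiv_self]

/-- Tensoring with the trivial one-dimensional representation changes nothing. -/
lemma det_tens_one (β : Γ →* Matrix κ κ O) (A : Matrix ι ι (MonoidAlgebra ℤ Γ)) :
    (evalMat ℤ (tens β (1 : Γ →* Matrix Unit Unit O)) A).det = (evalMat ℤ β A).det := by
  set e : ι × (κ × Unit) ≃ ι × κ := Equiv.prodCongr (Equiv.refl ι) (Equiv.prodPUnit κ) with he
  have h1 : ∀ (x : MonoidAlgebra ℤ Γ) (b b' : κ),
      evalHom ℤ (tens β (1 : Γ →* Matrix Unit Unit O)) x (b, ()) (b', ()) =
      evalHom ℤ β x b b' := by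
    intro x b b'
    induction x using MonoidAlgebra.induction_linear with
    | zero => simp
    | add x y hx hy =>
      rw [map_add, map_add, Matrix.add_apply, Matrix.add_apply, hx, hy]
    | single g m =>
      rw [evalHom_single, evalHom_single, Matrix.smul_apply, Matrix.smul_apply, tens_apply]
      simp
  have h : evalMat ℤ (tens β (1 : Γ →* Matrix Unit Unit O)) A =
      (evalMat ℤ β A).submatrix e e := by
    ext x y
    rw [Matrix.submatrix_apply, evalMat_apply, evalMat_apply]
    exact h1 _ _ _
  rw [h, Matrix.det_submatrix_equiv_self]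

/-- The pairing of twisted elements. -/
lemma bil_twHom (β : Γ →* Matrix κ κ O) {c : Γ} {δ : Γ → Γ → ℤ}
    (x y : MonoidAlgebra ℤ Γ) :
    ∑ a, ∑ b, bil (psi O c δ) (twHom β x a b) (twHom β y b a) =
      Matrix.trace (β c) * ((bil (psi ℤ c δ) x y : ℤ) : O) := by
  induction x using MonoidAlgebra.induction_linear with
  | zero => simp
  | add x x' hx hx' =>
    rw [map_add, map_add, AddMonoidHom.add_apply, Int.cast_add, mul_add, ← hx, ← hx',
      ← Finset.sum_add_distrib]
    refine Finset.sum_congr rfl fun a _ => ?_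
    rw [← Finset.sum_add_distrib]
    refine Finset.sum_congr rfl fun b _ => ?_
    rw [Matrix.add_apply, map_add, AddMonoidHom.add_apply]
  | single g m =>
    induction y using MonoidAlgebra.induction_linear with
    | zero => simp
    | add y y' hy hy' =>
      rw [map_add, map_add, Int.cast_add, mul_add, ← hy, ← hy', ← Finset.sum_add_distrib]
      refine Finset.sum_congr rfl fun a _ => ?_
      rw [← Finset.sum_add_distrib]
      refine Finset.sum_congr rfl fun b _ => ?_
      rw [Matrix.add_apply, map_add]
    | single h n =>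
      have h1 : ∀ a b, bil (psi O c δ) (twHom β (MonoidAlgebra.single g m) a b)
          (twHom β (MonoidAlgebra.single h n) b a) =
          ((m * n : ℤ) : O) * psi O c δ g h * (β g a b * β h b a) := by
        intro a b
        rw [twHom_single, twHom_single, Matrix.smul_apply, Matrix.smul_apply, twMon_apply,
          twMon_apply, map_zsmul, map_zsmul, AddMonoidHom.zsmul_apply, bil_single,
          zsmul_eq_mul, zsmul_eq_mul]
        push_cast
        ring
      have h2 : ∑ a, ∑ b, β g a b * β h b a = Matrix.trace (β (g * h)) := by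
        rw [map_mul, Matrix.trace]
        refine Finset.sum_congr rfl fun a _ => ?_
        rw [Matrix.diag_apply, Matrix.mul_apply]
      calc ∑ a, ∑ b, bil (psi O c δ) (twHom β (MonoidAlgebra.single g m) a b)
            (twHom β (MonoidAlgebra.single h n) b a)
          = ((m * n : ℤ) : O) * psi O c δ g h * Matrix.trace (β (g * h)) := by
            rw [← h2, Finset.mul_sum]
            refine Finset.sum_congr rfl fun a _ => ?_
            rw [Finset.mul_sum]
            exact Finset.sum_congr rfl fun b _ => h1 a b
        _ = _ := by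
            rw [bil_single]
            unfold psi
            by_cases hc : IsConj c (g * h)
            · rw [if_pos hc, if_pos hc, trace_isConj β hc]
              push_cast
              ring
            · rw [if_neg hc, if_neg hc]
              simp

lemma bil_psi_int_eq {c : Γ} {δ : Γ → Γ → ℤ} (x y : MonoidAlgebra ℤ Γ) :
    bil (psi ℤ c δ) x y = x.coeff.sum fun g b => y.coeff.sum fun h a =>
      b * (a * psi ℤ c δ g h) := by
  have hx : x = x.coeff.sum MonoidAlgebra.single := (MonoidAlgebra.sum_coeff_single x).symm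
  have hy : y = y.coeff.sum MonoidAlgebra.single := (MonoidAlgebra.sum_coeff_single y).symm
  have h1 : bil (psi ℤ c δ) x y =
      ∑ g ∈ x.coeff.support, bil (psi ℤ c δ) (MonoidAlgebra.single g (x.coeff g)) y := by
    conv_lhs => rw [hx]
    rw [Finsupp.sum, map_sum, AddMonoidHom.finsetSum_apply]
  rw [h1, Finsupp.sum]
  refine Finset.sum_congr rfl fun g _ => ?_
  conv_lhs => rw [hy]
  rw [Finsupp.sum, map_sum, Finsupp.sum]
  exact Finset.sum_congr rfl fun h _ => bil_single _ _ _ _ _

/-- The pairing of the twists of two matrices. -/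
lemma mbil_twist {n : ℕ} (β : Γ →* Matrix κ κ O) {c : Γ} {δ : Γ → Γ → ℤ}
    (A B : Matrix (Fin n) (Fin n) (MonoidAlgebra ℤ Γ)) :
    mbil (bil (psi O c δ)) (twist β B) (twist β A) =
      Matrix.trace (β c) * ((dennisPairing A B c δ : ℤ) : O) := by
  have h1 : mbil (bil (psi O c δ)) (twist β B) (twist β A) =
      ∑ i, ∑ j, ∑ a, ∑ b, bil (psi O c δ) (twHom β (B i j) a b) (twHom β (A j i) b a) := by
    rw [mbil_apply, Fintype.sum_prod_type]
    refine Finset.sum_congr rfl fun i _ => ?_
    rw [Finset.sum_congr rfl fun a _ => Fintype.sum_prod_type _, Finset.sum_comm]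
    rfl
  rw [h1]
  unfold dennisPairing
  rw [Int.cast_sum, Finset.mul_sum]
  refine Finset.sum_congr rfl fun i _ => ?_
  rw [Int.cast_sum, Finset.mul_sum]
  refine Finset.sum_congr rfl fun j _ => ?_
  rw [bil_twHom, bil_psi_int_eq]
  congr 2
  refine Finset.sum_congr rfl fun g _ => Finset.sum_congr rfl fun h _ => ?_
  unfold psi
  dsimp only
  split_ifs
  · simp [mul_assoc]
  · simp

end twist

end Pool.Agent.Lib.MP_8f66f0_al_FinQ
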