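import Mathlib
import Pool.Agent.Lib.MP_8f66f0_al_Dennis.TraceMain
import Pool.Agent.Lib.MP_8f66f0_al_FinQ.Twist

/-! Determinants of congruent representations with finite image. -/

set_option autoImplicit false
set_option linter.unusedSectionVars false

namespace Pool.Agent.Lib.MP_8f66f0_al_FinQ

open Pool.Agent.Lib.MP_8f66f0_al_Dennis

section coeffs

variable {Γ : Type*} [Group Γ] {O : Type*} [CommRing O] {ι : Type*} [Fintype ι] [DecidableEq ι]

/-- All coefficients of all entries are in the ideal `I`. -/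
def CoeffIn (I : Ideal O) (Y : Matrix ι ι (MonoidAlgebra O Γ)) : Prop :=
  ∀ i j g, (Y i j).coeff g ∈ I

lemma coeff_mul_mem {I J : Ideal O} {x y : MonoidAlgebra O Γ} (hx : ∀ g, x.coeff g ∈ I)
    (hy : ∀ g, y.coeff g ∈ J) (g : Γ) : (x * y).coeff g ∈ I * J := by
  rw [MonoidAlgebra.coeff_mul_apply_left, Finsupp.sum]
  exact Ideal.sum_mem _ fun h _ => Ideal.mul_mem_mul (hx h) (hy _)

lemma CoeffIn.mul {I J : Ideal O} {X Y : Matrix ι ι (MonoidAlgebra O Γ)} (hX : CoeffIn I X)
    (hY : CoeffIn J Y) : CoeffIn (I * J) (X * Y) := by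
  intro i j g
  rw [Matrix.mul_apply, MonoidAlgebra.coeff_sum, Finsupp.finsetSum_apply]
  exact Ideal.sum_mem _ fun k _ => coeff_mul_mem (fun g => hX i k g) (fun g => hY k j g) g

lemma CoeffIn.top (X : Matrix ι ι (MonoidAlgebra O Γ)) : CoeffIn ⊤ X := fun _ _ _ =>
  Submodule.mem_top

lemma CoeffIn.pow {I : Ideal O} {X : Matrix ι ι (MonoidAlgebra O Γ)} (hX : CoeffIn I X) (m : ℕ) :
    CoeffIn (I ^ m) (X ^ m) := by
  induction m with
  | zero =>
    rw [pow_zero, pow_zero, Ideal.one_eq_top]
    exact CoeffIn.top _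
  | succ m ih =>
    rw [pow_succ, pow_succ]
    exact ih.mul hX

lemma CoeffIn.mono {I J : Ideal O} (h : I ≤ J) {X : Matrix ι ι (MonoidAlgebra O Γ)}
    (hX : CoeffIn I X) : CoeffIn J X := fun i j g => h (hX i j g)

open Classical in
lemma CoeffIn.exists_smul [IsDomain O] {p : ℕ} (hp : (p : O) ≠ 0)
    {Y : Matrix ι ι (MonoidAlgebra O Γ)} (hY : CoeffIn (Ideal.span {(p : O)}) Y) :
    ∃ W, Y = p • W := by
  set d : O → O := fun x => if h : (p : O) ∣ x then h.choose else 0 with hd
  have hd1 : ∀ x, (p : O) ∣ x → x = (p : O) * d x := by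
    intro x hx
    rw [hd]
    dsimp only
    rw [dif_pos hx]
    exact hx.choose_spec
  have hd0 : d 0 = 0 := by
    have := hd1 0 (dvd_zero _)
    exact (mul_eq_zero.mp this.symm).resolve_left hp
  refine ⟨Matrix.of fun i j => MonoidAlgebra.ofCoeff ((Y i j).coeff.mapRange d hd0), ?_⟩
  ext i j : 1
  rw [Matrix.smul_apply, Matrix.of_apply]
  apply MonoidAlgebra.coeff_injective
  ext g
  rw [MonoidAlgebra.coeff_smul, MonoidAlgebra.coeff_ofCoeff, Finsupp.smul_apply,
    Finsupp.mapRange_apply, nsmul_eq_mul]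
  exact hd1 _ (Ideal.mem_span_singleton.mp (hY i j g))

end coeffs

section powers

variable {R O : Type*} [Ring R] [AddCommGroup O]

lemma phi_pow' {φ : R →+ R →+ O} (hφ : ∀ x y z, φ x (y * z) = φ (x * y) z + φ (z * x) y)
    {X : R} (b : ℕ) {a : R} (ha : Commute a X) :
    φ a (X ^ (b + 1)) = (b + 1) • φ (a * X ^ b) X := by
  induction b generalizing a with
  | zero => simp
  | succ b ih =>
    have h1 : Commute (X * a) X := (Commute.refl X).mul_left ha
    have e1 : X * a * X ^ b = a * X ^ (b + 1) := by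
      rw [← ha.eq, mul_assoc, ← pow_succ']
    rw [pow_succ X (b + 1), hφ, ih h1, e1, succ_nsmul _ (b + 1), add_comm]

lemma phi_pow_inv {φ : R →+ R →+ O} (hφ : ∀ x y z, φ x (y * z) = φ (x * y) z + φ (z * x) y)
    {X X' : R} (h : X' * X = 1) (h' : X * X' = 1) (h0 : φ X' X = 0) (m : ℕ) :
    φ (X' ^ m) (X ^ m) = 0 := by
  have h11 : φ 1 1 = 0 := by
    have := hφ 1 1 1
    rw [mul_one] at this
    exact left_eq_add.mp this
  rcases Nat.eq_zero_or_pos m with rfl | hm
  · rw [pow_zero, pow_zero, h11]
  · obtain ⟨b, rfl⟩ : ∃ b, m = b + 1 := ⟨m - 1, by omega⟩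
    have hc : Commute X' X := h.trans h'.symm
    rw [phi_pow' hφ b (hc.pow_left (b + 1))]
    have e1 : X' ^ (b + 1) * X ^ b = X' := by
      rw [pow_succ', mul_assoc, pow_mul_pow_eq_one b h, mul_one]
    rw [e1, h0, smul_zero]

/-- If a power of `Y` is divisible by `p` then some `p`-power of `1 + Y` is `1` modulo `p ^ 2`. -/
lemma exists_pow_eq {p : ℕ} (hp : p.Prime) {Y W0 : R} {m : ℕ} (hY : Y ^ m = p • W0) :
    ∃ M : ℕ, 0 < M ∧ ∃ Z0, (1 + Y) ^ M = 1 + (p ^ 2) • Z0 := by
  obtain ⟨r, hr⟩ := (Commute.one_left Y).exists_add_pow_prime_pow_eq hp m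
  have hle : m ≤ p ^ m := (Nat.lt_pow_self hp.one_lt).le
  have h1 : (1 + Y) ^ (p ^ m) = 1 + p • (W0 * Y ^ (p ^ m - m) + Y * r) := by
    rw [hr, one_pow, mul_one]
    have e1 : Y ^ (p ^ m) = p • (W0 * Y ^ (p ^ m - m)) := by
      rw [← smul_mul_assoc, ← hY, ← pow_add]
      congr 1
      omega
    rw [e1, smul_add, nsmul_eq_mul p (Y * r), add_assoc, mul_assoc]
  set W1 := W0 * Y ^ (p ^ m - m) + Y * r with hW1
  clear_value W1
  obtain ⟨W, hW⟩ := one_add_pow_expand (p • W1) p
  refine ⟨p ^ m * p, Nat.mul_pos (pow_pos hp.pos _) hp.pos, W1 + W1 * W1 * W, ?_⟩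
  rw [pow_mul, h1, hW, smul_smul, smul_mul_smul_comm, smul_mul_assoc, smul_add, ← add_assoc,
    pow_two]

end powers

section main

variable {Γ : Type*} [Group Γ] {O : Type*} [CommRing O]
  {ι κ κ' : Type*} [Fintype ι] [DecidableEq ι] [Fintype κ] [DecidableEq κ] [Fintype κ']
  [DecidableEq κ']

lemma evalMat_int_eq (σ : Γ →* Matrix κ κ O) (A : Matrix ι ι (MonoidAlgebra ℤ Γ)) :
    evalMat ℤ σ A = mapRep σ A := rfl

lemma coeffIn_twist_sub {J : Ideal O} {β β' : Γ →* Matrix κ κ O}
    (h : ∀ g a b, β g a b - β' g a b ∈ J) (A : Matrix ι ι (MonoidAlgebra ℤ Γ)) :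
    CoeffIn J (twist β A - twist β' A) := by
  classical
  have h1 : ∀ (x : MonoidAlgebra ℤ Γ) (a b : κ) (g : Γ),
      (twHom β x a b - twHom β' x a b).coeff g ∈ J := by
    intro x a b g
    induction x using MonoidAlgebra.induction_linear with
    | zero => simp
    | add x y hx hy =>
      rw [map_add, map_add, Matrix.add_apply, Matrix.add_apply, add_sub_add_comm,
        MonoidAlgebra.coeff_add, Finsupp.add_apply]
      exact J.add_mem hx hy
    | single k m =>
      rw [twHom_single, twHom_single, Matrix.smul_apply, Matrix.smul_apply, ← smul_sub,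
        twMon_apply, twMon_apply, MonoidAlgebra.coeff_smul, Finsupp.smul_apply]
      have e : (MonoidAlgebra.single k (β k a b) - MonoidAlgebra.single k (β' k a b) :
          MonoidAlgebra O Γ) = MonoidAlgebra.single k (β k a b - β' k a b) := by
        rw [sub_eq_iff_eq_add, ← MonoidAlgebra.single_add, sub_add_cancel]
      rw [e, MonoidAlgebra.coeff_single, Finsupp.single_apply]
      split_ifs
      · rw [zsmul_eq_mul]
        exact J.mul_mem_left _ (h k a b)
      · rw [smul_zero]; exact J.zero_mem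
  intro x y g
  rw [Matrix.sub_apply, twist_apply, twist_apply]
  exact h1 _ _ _ _

open Classical in
/-- The regular representation of a finite group. -/
noncomputable def regRep (O : Type*) [CommRing O] (Q : Type*) [Group Q] [Fintype Q] :
    Q →* Matrix Q Q O where
  toFun q := Matrix.of fun x y => if x = q * y then 1 else 0
  map_one' := by
    ext x y
    rw [Matrix.of_apply, one_mul, Matrix.one_apply]
  map_mul' q r := by
    ext x y
    rw [Matrix.of_apply, Matrix.mul_apply, Finset.sum_eq_single (r * y)]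
    · rw [Matrix.of_apply, Matrix.of_apply, if_pos rfl, mul_one, mul_assoc]
    · intro z _ hz
      rw [Matrix.of_apply, Matrix.of_apply, if_neg hz, mul_zero]
    · intro h; exact absurd (Finset.mem_univ _) h

open Classical in
lemma trace_regRep (Q : Type*) [Group Q] [Fintype Q] (q : Q) (hq : q ≠ 1) :
    (regRep O Q q).trace = 0 := by
  rw [Matrix.trace]
  refine Finset.sum_eq_zero fun x _ => ?_
  rw [Matrix.diag_apply]
  change (if x = q * x then (1 : O) else 0) = 0
  rw [if_neg]
  intro h
  exact hq (mul_eq_right.mp h.symm)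

/-- Two representations with the same character have the same determinants. -/
lemma det_eq_of_trace_eq [IsDomain O] [CharZero O] (σ σ' : Γ →* Matrix κ κ O)
    (h : ∀ g, (σ g).trace = (σ' g).trace) {A B : Matrix ι ι (MonoidAlgebra ℤ Γ)}
    (hAB : A * B = 1) : (mapRep σ A).det = (mapRep σ' A).det := by
  set F := FractionRing O
  have hchar : CharZero F :=
    charZero_of_injective_algebraMap (IsFractionRing.injective O F)
  set s : O →+* F := algebraMap O F with hs
  set σs : Bool → (Γ →* Matrix κ κ F) := fun b =>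
    (s.mapMatrix : Matrix κ κ O →+* Matrix κ κ F).toMonoidHom.comp (if b then σ else σ') with hσs
  have h1 := prod_det_mapRep σs (fun b => if b then 1 else -1) (by
    intro g
    rw [Fintype.sum_bool]
    have e1 : (σs true g).trace = s (σ g).trace := (AddMonoidHom.map_trace s.toAddMonoidHom _).symm
    have e2 : (σs false g).trace = s (σ' g).trace :=
      (AddMonoidHom.map_trace s.toAddMonoidHom _).symm
    rw [e1, e2, h g]
    simp only [if_true, Bool.false_eq_true, if_false, Int.cast_one, Int.cast_neg]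
    ring) hAB
  rw [Fintype.prod_bool] at h1
  have e1 : (mapRep (σs true) A).det = s (mapRep σ A).det := by
    rw [RingHom.map_det]
    change _ = ((mapRep σ A).map s).det
    rw [mapRep_map]
    rfl
  have e2 : (mapRep (σs false) A).det = s (mapRep σ' A).det := by
    rw [RingHom.map_det]
    change _ = ((mapRep σ' A).map s).det
    rw [mapRep_map]
    rfl
  have hne : s (mapRep σ' A).det ≠ 0 := by
    have := (isUnit_det_mapRep σ' hAB).map s
    exact this.ne_zero
  rw [e1, e2] at h1
  simp only [if_true, zpow_one, Bool.false_eq_true, if_false, zpow_neg] at h1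
  rw [mul_inv_eq_one₀ hne] at h1
  exact IsFractionRing.injective O F h1

/-- Lemma P. Let `β` and `β'` be representations of a finite quotient of `Γ` in which undetected
elements die, and suppose that they are congruent modulo the radical of `p`. Then the determinants
of `A` in these two representations agree up to a root of unity. -/
theorem lemmaP (hsep : ∀ H : Subgroup Γ, H.FG → PowerSeparated H) {n : ℕ}
    {A B : Matrix (Fin n) (Fin n) (MonoidAlgebra ℤ Γ)} (hAB : A * B = 1) (hBA : B * A = 1)
    {Q : Type*} [Group Q] [Finite Q] (π : Γ →* Q)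
    (hπ : ∀ c : Γ, c ≠ 1 → ¬ Detected c → π c = 1)
    [IsDomain O] [CharZero O] [IsNoetherianRing O] {p : ℕ} [hp : Fact p.Prime]
    (hpu : ¬ IsUnit (p : O)) (β β' : Q →* Matrix κ κ O)
    (hcong : ∀ q a b, β q a b - β' q a b ∈ (Ideal.span {(p : O)}).radical) :
    ∃ N : ℕ, 0 < N ∧ (mapRep (β.comp π) A).det ^ N = (mapRep (β'.comp π) A).det ^ N := by
  classical
  have : Fintype Q := Fintype.ofFinite Q
  have hp0 : (p : O) ≠ 0 := Nat.cast_ne_zero.mpr hp.out.ne_zero
  have hπ' : ∀ c : Γ, ¬ Detected c → π c = 1 := by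
    intro c hc
    by_cases h : c = 1
    · rw [h, map_one]
    · exact hπ c h hc
  set b := β.comp π with hb
  set b' := β'.comp π with hb'
  set X := twist b' B * twist b A with hX
  set X' := twist b B * twist b' A with hX'
  have hAB1 : ∀ σ : Γ →* Matrix κ κ O, twist σ A * twist σ B = 1 := fun σ => by
    rw [← map_mul, hAB, map_one]
  have hBA1 : ∀ σ : Γ →* Matrix κ κ O, twist σ B * twist σ A = 1 := fun σ => by
    rw [← map_mul, hBA, map_one]
  have hX'X : X' * X = 1 := by
    rw [hX, hX', mul_assoc, ← mul_assoc (twist b' A), hAB1, one_mul, hBA1]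
  have hXX' : X * X' = 1 := by
    rw [hX, hX', mul_assoc, ← mul_assoc (twist b A), hAB1, one_mul, hBA1]
  -- the pairings vanish
  have hpair : ∀ (c : Γ) (δ : Γ → Γ → ℤ), IsClassCocycle c δ → δ c c ≠ 0 →
      mbil (bil (psi O c δ)) X' X = 0 := by
    intro c δ hδ hne
    have hc1 : c ≠ 1 := by
      rintro rfl
      exact not_detected_one ⟨δ, hδ, hne⟩
    have hco := mbil_cocycle (ι := Fin n × κ) (b := bil (psi O c δ)) (bil_psi_cocycle hδ)
    rw [hX, hco]
    have e1 : X' * twist b' B = twist b B := by rw [hX', mul_assoc, hAB1, mul_one]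
    have e2 : twist b A * X' = twist b' A := by rw [hX', ← mul_assoc, hAB1, one_mul]
    rw [e1, e2, mbil_twist, mbil_twist, dennis_int hsep hAB hBA c hc1 δ hδ,
      dennis_int hsep hBA hAB c hc1 δ hδ]
    simp
  -- `X` is congruent to one modulo the radical
  set J := (Ideal.span {(p : O)}).radical with hJ
  have hY : CoeffIn J (X - 1) := by
    have e1 : X - 1 = twist b' B * (twist b A - twist b' A) := by
      rw [mul_sub, hBA1, hX]
    rw [e1]
    have := (CoeffIn.top (twist b' B)).mul (coeffIn_twist_sub (J := J) (β := b) (β' := b')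
      (fun g x y => hcong (π g) x y) A)
    rwa [Ideal.top_mul] at this
  obtain ⟨m, hm⟩ := Ideal.exists_radical_pow_le_of_fg (Ideal.span {(p : O)})
    (IsNoetherian.noetherian _)
  obtain ⟨W0, hW0⟩ := ((hY.pow m).mono hm).exists_smul hp0
  obtain ⟨M, hM, Z0, hZ0⟩ := exists_pow_eq hp.out hW0
  rw [add_sub_cancel] at hZ0
  have hXM : X' ^ M * X ^ M = 1 := pow_mul_pow_eq_one M hX'X
  -- Lemma M for the power of `X`
  have key := det_eq_of_pairings hp.out (PSep.of_noetherian hpu) hZ0 hXM
    (fun c δ hδ hne => phi_pow_inv (fun x y z => mbil_cocycle (bil_psi_cocycle hδ) x y z)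
      hX'X hXX' (hpair c δ hδ hne) M)
    ((regRep O Q).comp π) (fun g hg => by rw [MonoidHom.comp_apply, hπ' g hg, map_one])
    (1 : Γ →* Matrix Unit Unit O) (fun g _ => rfl)
  rw [map_pow, map_pow, Matrix.det_pow, Matrix.det_pow] at key
  -- the determinant in the regular representation
  have hreg : (evalMat O ((regRep O Q).comp π) X).det = 1 := by
    rw [hX, map_mul, Matrix.det_mul, evalMat_twist, evalMat_twist, evalMat_int_eq,
      evalMat_int_eq]
    have h1 : (mapRep (tens b ((regRep O Q).comp π)) A).det =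
        (mapRep (tens b' ((regRep O Q).comp π)) A).det := by
      refine det_eq_of_trace_eq _ _ (fun g => ?_) hAB
      rw [trace_tens, trace_tens]
      by_cases hg : π g = 1
      · simp only [hb, hb', MonoidHom.comp_apply, hg, map_one]
      · rw [MonoidHom.comp_apply (regRep O Q), trace_regRep Q (π g) hg, mul_zero, mul_zero]
    rw [h1, ← Matrix.det_mul, ← mapRep_mul, hBA, mapRep_one, Matrix.det_one]
  rw [hreg, one_pow, one_pow] at key
  set u := (mapRep b A).det with hu
  set u' := (mapRep b' A).det with hu'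
  set v' := (mapRep b' B).det with hv'
  have huv : u' * v' = 1 := by
    rw [hu', hv', ← Matrix.det_mul, ← mapRep_mul, hAB, mapRep_one, Matrix.det_one]
  have hone : (evalMat O (1 : Γ →* Matrix Unit Unit O) X).det = v' * u := by
    rw [hX, map_mul, Matrix.det_mul, evalMat_twist, evalMat_twist, det_tens_one, det_tens_one]
    rfl
  rw [hone, ← pow_mul] at key
  have hN : 0 < M * Fintype.card (Q) := Nat.mul_pos hM Fintype.card_pos
  refine ⟨M * Fintype.card Q, hN, ?_⟩
  calc u ^ (M * Fintype.card Q) = (u' * v') ^ (M * Fintype.card Q) * u ^ (M * Fintype.card Q) := by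
        rw [huv, one_pow, one_mul]
    _ = u' ^ (M * Fintype.card Q) * (v' * u) ^ (M * Fintype.card Q) := by
        rw [mul_pow, mul_pow]; ring
    _ = u' ^ (M * Fintype.card Q) := by rw [← key, mul_one]

end main

end Pool.Agent.Lib.MP_8f66f0_al_FinQ
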