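import Mathlib

/-! Homomorphisms from centralizers in linear groups. -/

set_option autoImplicit false
set_option linter.unusedSectionVars false

namespace Pool.Agent.Lib.MP_8f66f0_al_FinQ

open IntermediateField

section lift

variable {k Ω : Type*} [Field k] [Field Ω] [Algebra k Ω] {m : ℕ}

/-- A finitely generated linear group is defined over a finitely generated extension. -/
lemma exists_lift_field {G : Type*} [Group G] [Group.FG G]
    (ρ : G →* Matrix.GeneralLinearGroup (Fin m) Ω) :
    ∃ (T : Finset Ω) (ρ' : G →* Matrix.GeneralLinearGroup (Fin m) (adjoin k (T : Set Ω))),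
      ∀ g, Matrix.GeneralLinearGroup.map (algebraMap (adjoin k (T : Set Ω)) Ω) (ρ' g) = ρ g := by
  classical
  obtain ⟨S, hS⟩ := (Group.fg_def.mp ‹Group.FG G›)
  set T : Finset Ω := (S ×ˢ (Finset.univ : Finset (Fin m × Fin m))).biUnion fun x =>
    {(ρ x.1 : Matrix (Fin m) (Fin m) Ω) x.2.1 x.2.2,
      ((ρ x.1)⁻¹ : Matrix.GeneralLinearGroup (Fin m) Ω) x.2.1 x.2.2} with hT
  set R : IntermediateField k Ω := adjoin k (T : Set Ω) with hR
  set ι : R →+* Ω := algebraMap R Ω with hι
  have hιinj : Function.Injective ι := Subtype.val_injective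
  set μ : Matrix.GeneralLinearGroup (Fin m) R →* Matrix.GeneralLinearGroup (Fin m) Ω :=
    Matrix.GeneralLinearGroup.map ι with hμ
  have hμinj : Function.Injective μ := by
    intro a b hab
    apply Units.ext
    ext i j
    have h1 := congrArg (fun u : Matrix.GeneralLinearGroup (Fin m) Ω =>
      (u : Matrix (Fin m) (Fin m) Ω) i j) hab
    exact h1
  have hrange : ∀ g : G, ρ g ∈ μ.range := by
    have hle : Subgroup.closure (S : Set G) ≤ μ.range.comap ρ := by
      rw [Subgroup.closure_le]
      intro s hs
      have hmem : ∀ i j, (ρ s : Matrix (Fin m) (Fin m) Ω) i j ∈ R := by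
        intro i j
        apply subset_adjoin
        rw [hT, Finset.mem_coe, Finset.mem_biUnion]
        exact ⟨(s, (i, j)), Finset.mem_product.mpr ⟨hs, Finset.mem_univ _⟩, by simp⟩
      have hmem' : ∀ i j, ((ρ s)⁻¹ : Matrix.GeneralLinearGroup (Fin m) Ω) i j ∈ R := by
        intro i j
        apply subset_adjoin
        rw [hT, Finset.mem_coe, Finset.mem_biUnion]
        exact ⟨(s, (i, j)), Finset.mem_product.mpr ⟨hs, Finset.mem_univ _⟩, by simp⟩
      set M : Matrix (Fin m) (Fin m) R := Matrix.of fun i j => ⟨_, hmem i j⟩ with hM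
      set M' : Matrix (Fin m) (Fin m) R := Matrix.of fun i j => ⟨_, hmem' i j⟩ with hM'
      have hMm : M.map ι = (ρ s : Matrix (Fin m) (Fin m) Ω) := rfl
      have hMm' : M'.map ι = ((ρ s)⁻¹ : Matrix.GeneralLinearGroup (Fin m) Ω) := rfl
      have h1 : M * M' = 1 := by
        apply Matrix.map_injective hιinj
        change (M * M').map ι = (1 : Matrix (Fin m) (Fin m) R).map ι
        rw [Matrix.map_mul, hMm, hMm', Matrix.map_one _ (map_zero _) (map_one _), ← Units.val_mul,
          mul_inv_cancel, Units.val_one]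
      have h2 : M' * M = 1 := by
        apply Matrix.map_injective hιinj
        change (M' * M).map ι = (1 : Matrix (Fin m) (Fin m) R).map ι
        rw [Matrix.map_mul, hMm, hMm', Matrix.map_one _ (map_zero _) (map_one _), ← Units.val_mul,
          inv_mul_cancel, Units.val_one]
      refine ⟨⟨M, M', h1, h2⟩, ?_⟩
      apply Units.ext
      rfl
    intro g
    have : g ∈ Subgroup.closure (S : Set G) := by rw [hS]; trivial
    exact hle this
  set ρ' : G →* Matrix.GeneralLinearGroup (Fin m) R :=
    ((MonoidHom.ofInjective hμinj).symm.toMonoidHom).comp (ρ.codRestrict μ.range hrange) with hρ'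
  refine ⟨T, ρ', fun g => ?_⟩
  have h1 : (MonoidHom.ofInjective hμinj) (ρ' g) = ⟨ρ g, hrange g⟩ := by
    rw [hρ']
    change (MonoidHom.ofInjective hμinj) ((MonoidHom.ofInjective hμinj).symm _) = _
    rw [MulEquiv.apply_symm_apply]
    rfl
  exact congrArg Subtype.val h1

end lift

section eigen

variable {L : Type*} [Field L] {m : ℕ} {G : Type*} [Group G]

/-- The determinant on an eigenspace. -/
lemma exists_det_hom (ρ : G →* Matrix.GeneralLinearGroup (Fin m) L) (c : G) (μ : L)
    (hμ : (ρ c : Matrix (Fin m) (Fin m) L).charpoly.IsRoot μ) :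
    ∃ (D : Subgroup.centralizer ({c} : Set G) →* L) (r : ℕ), 0 < r ∧
      D ⟨c, Subgroup.mem_centralizer_singleton_iff.mpr rfl⟩ = μ ^ r := by
  classical
  set f : Module.End L (Fin m → L) := Matrix.toLin' (ρ c : Matrix (Fin m) (Fin m) L) with hf
  have hev : f.HasEigenvalue μ := by
    rw [Module.End.hasEigenvalue_iff_isRoot_charpoly, hf, Matrix.charpoly_toLin']
    exact hμ
  set E := Module.End.eigenspace f μ with hE
  have hmap : ∀ z : Subgroup.centralizer ({c} : Set G), ∀ v ∈ E,
      Matrix.toLin' (ρ (z : G) : Matrix (Fin m) (Fin m) L) v ∈ E := by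
    intro z v hv
    rw [hE, Module.End.mem_eigenspace_iff] at hv ⊢
    have hcomm : (ρ c : Matrix (Fin m) (Fin m) L) * (ρ (z : G)) = ρ (z : G) * ρ c := by
      rw [← Units.val_mul, ← Units.val_mul, ← map_mul, ← map_mul]
      have := Subgroup.mem_centralizer_singleton_iff.mp z.2
      rw [this]
    rw [hf, ← Matrix.toLin'_mul_apply, hcomm, Matrix.toLin'_mul_apply, ← hf, hv, map_smul]
  let D0 : Subgroup.centralizer ({c} : Set G) →* Module.End L E :=
    { toFun := fun z => (Matrix.toLin' (ρ (z : G) : Matrix (Fin m) (Fin m) L)).restrict (hmap z)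
      map_one' := by
        ext v
        simp
      map_mul' := fun z w => by
        ext v
        simp [Matrix.toLin'_mul] }
  have hne : Nontrivial E := by
    rw [Submodule.nontrivial_iff_ne_bot]
    exact hev
  refine ⟨LinearMap.det.comp D0, Module.finrank L E, Module.finrank_pos, ?_⟩
  have h1 : D0 ⟨c, Subgroup.mem_centralizer_singleton_iff.mpr rfl⟩ = μ • LinearMap.id := by
    ext v i
    have := Module.End.mem_eigenspace_iff.mp v.2
    change (f v) i = (μ • (v : Fin m → L)) i
    rw [this]
  rw [MonoidHom.comp_apply, h1]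
  change LinearMap.det (μ • LinearMap.id) = _
  rw [LinearMap.det_smul, LinearMap.det_id, mul_one]

end eigen

end Pool.Agent.Lib.MP_8f66f0_al_FinQ
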