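import Mathlib

/-! Homomorphisms from the multiplicative group of a number field to the integers. -/

set_option autoImplicit false
set_option linter.unusedSectionVars false
set_option maxSynthPendingDepth 3

namespace Pool.Agent.Lib.MP_8f66f0_al_FinQ

open IsDedekindDomain HeightOneSpectrum

section dedekind

variable {R K : Type*} [CommRing R] [IsDedekindDomain R] [Field K] [Algebra R K]
  [IsFractionRing R K]

lemma valNZ_eq_one_iff (v : HeightOneSpectrum R) (x : Kˣ) :
    v.valuationOfNeZero x = 1 ↔ v.valuation K (x : K) = 1 := by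
  rw [← WithZero.coe_inj, valuationOfNeZero_eq, WithZero.coe_one]

lemma finite_valNZ (x : Kˣ) : {v : HeightOneSpectrum R | v.valuationOfNeZero x ≠ 1}.Finite := by
  refine ((HeightOneSpectrum.Support.finite R (x : K)).union
    (HeightOneSpectrum.Support.finite R ((x⁻¹ : Kˣ) : K))).subset ?_
  intro v hv
  rw [Set.mem_ofPred_eq, Ne, valNZ_eq_one_iff] at hv
  rcases lt_or_gt_of_ne hv with h | h
  · right
    change 1 < v.valuation K ((x⁻¹ : Kˣ) : K)
    rw [Units.val_inv_eq_inv_val, map_inv₀]
    have h0 : v.valuation K (x : K) ≠ 0 := (Valuation.ne_zero_iff _).mpr x.ne_zero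
    exact (one_lt_inv₀ (zero_lt_iff.mpr h0)).mpr h
  · left
    exact h

variable (K) in
/-- An element generating the `h`-th power of a prime ideal. -/
lemma exists_generator (v : HeightOneSpectrum R) {h : ℕ} (hh : (v.asIdeal ^ h).IsPrincipal) :
    ∃ π : Kˣ, v.valuationOfNeZero π = Multiplicative.ofAdd (-(h : ℤ)) ∧
      ∀ w : HeightOneSpectrum R, w ≠ v → w.valuationOfNeZero π = 1 := by
  obtain ⟨a, ha⟩ := hh
  rw [Ideal.submodule_span_eq] at ha
  have ha0 : a ≠ 0 := by
    rintro rfl
    rw [Ideal.span_singleton_zero] at ha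
    rw [← Ideal.zero_eq_bot] at ha
    exact v.ne_bot (eq_zero_of_pow_eq_zero ha)
  have ha' : algebraMap R K a ≠ 0 := (map_ne_zero_iff _ (IsFractionRing.injective R K)).mpr ha0
  refine ⟨Units.mk0 _ ha', ?_, ?_⟩
  · rw [← WithZero.coe_inj, valuationOfNeZero_eq, Units.val_mk0, valuation_of_algebraMap,
      intValuation_eq_exp_neg_multiplicity v ha0, ← ha, multiplicity_pow_self_of_prime v.prime]
    rfl
  · intro w hw
    rw [valNZ_eq_one_iff, Units.val_mk0, valuation_eq_one_iff_notMem]
    intro hmem
    apply hw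
    have h1 : v.asIdeal ^ h ≤ w.asIdeal := by
      rw [ha, Ideal.span_singleton_le_iff_mem]
      exact hmem
    have h2 : v.asIdeal ≤ w.asIdeal := w.isPrime.le_of_pow_le h1
    have h3 := v.isMaximal.eq_of_le w.isPrime.ne_top h2
    exact HeightOneSpectrum.ext h3.symm

/-- Homomorphisms from the unit group extend, up to a power, to the multiplicative group of the
field, if the class group is finite. -/
theorem exists_extension [Finite (ClassGroup R)] {A : Type*} [CommGroup A] (φ : Rˣ →* A) :
    ∃ (h : ℕ) (u : Kˣ →* A), 0 < h ∧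
      ∀ x : Rˣ, u (Units.map (algebraMap R K).toMonoidHom x) = φ x ^ h := by
  classical
  set h := Nat.card (ClassGroup R) with hh
  have hpos : 0 < h := Nat.card_pos
  have hprin : ∀ v : HeightOneSpectrum R, (v.asIdeal ^ h).IsPrincipal := by
    intro v
    have hv : v.asIdeal ∈ nonZeroDivisors (Ideal R) := mem_nonZeroDivisors_of_ne_zero v.ne_bot
    have h1 : ClassGroup.mk0 (⟨v.asIdeal ^ h, pow_mem hv h⟩ : nonZeroDivisors (Ideal R)) = 1 := by
      have h3 : (⟨v.asIdeal ^ h, pow_mem hv h⟩ : nonZeroDivisors (Ideal R)) =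
        (⟨v.asIdeal, hv⟩ : nonZeroDivisors (Ideal R)) ^ h := rfl
      rw [h3, map_pow, hh, pow_card_eq_one']
    exact (ClassGroup.mk0_eq_one_iff (pow_mem hv h)).mp h1
  choose π hπ1 hπ2 using fun v => exists_generator K v (hprin v)
  have hfin : ∀ x : Kˣ, (Function.mulSupport fun v : HeightOneSpectrum R =>
      (π v) ^ (-(Multiplicative.toAdd (v.valuationOfNeZero x)))).Finite := by
    intro x
    refine (finite_valNZ (R := R) x).subset ?_
    intro v hv h1
    apply hv
    simp [h1]
  let s : Kˣ →* Kˣ :=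
    { toFun := fun x => ∏ᶠ v : HeightOneSpectrum R,
        (π v) ^ (-(Multiplicative.toAdd (v.valuationOfNeZero x)))
      map_one' := by simp
      map_mul' := fun x y => by
        rw [← finprod_mul_distrib (hfin x) (hfin y)]
        refine finprod_congr fun v => ?_
        rw [map_mul, toAdd_mul, neg_add, zpow_add] }
  have hs : ∀ (w : HeightOneSpectrum R) (x : Kˣ),
      w.valuationOfNeZero (s x) = (w.valuationOfNeZero x) ^ h := by
    intro w x
    change w.valuationOfNeZero (∏ᶠ v : HeightOneSpectrum R,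
        (π v) ^ (-(Multiplicative.toAdd (v.valuationOfNeZero x)))) = _
    rw [MonoidHom.map_finprod _ (hfin x), finprod_eq_single _ w]
    · rw [map_zpow, hπ1]
      apply Multiplicative.toAdd.injective
      rw [toAdd_zpow, toAdd_ofAdd, toAdd_pow]
      simp [mul_comm]
    · intro v hv
      rw [map_zpow, hπ2 v w hv.symm, one_zpow]
  let u0 : Kˣ →* Kˣ := (powMonoidHom h) / s
  have hu0 : ∀ x, u0 x = x ^ h / s x := fun x => rfl
  have hval : ∀ (w : HeightOneSpectrum R) (x : Kˣ), w.valuationOfNeZero (u0 x) = 1 := by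
    intro w x
    rw [hu0, map_div, map_pow, hs, div_self']
  set ι : Rˣ →* Kˣ := Units.map (algebraMap R K).toMonoidHom with hι
  have hιinj : Function.Injective ι := by
    intro a b hab
    apply Units.ext
    exact IsFractionRing.injective R K (congrArg Units.val hab)
  have hrange : ∀ x, u0 x ∈ ι.range := by
    intro x
    obtain ⟨a, ha⟩ := mem_integers_of_valuation_le_one (R := R) K ((u0 x : Kˣ) : K) (fun w =>
      ((valNZ_eq_one_iff w _).mp (hval w x)).le)
    obtain ⟨b, hb⟩ := mem_integers_of_valuation_le_one (R := R) K (((u0 x)⁻¹ : Kˣ) : K) (fun w => by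
      refine ((valNZ_eq_one_iff w _).mp ?_).le
      rw [map_inv, hval, inv_one])
    have hab : a * b = 1 := by
      apply IsFractionRing.injective R K
      rw [map_mul, ha, hb, map_one, ← Units.val_mul, mul_inv_cancel, Units.val_one]
    refine ⟨⟨a, b, hab, by rw [mul_comm]; exact hab⟩, ?_⟩
    apply Units.ext
    exact ha
  refine ⟨h, φ.comp ((MonoidHom.ofInjective hιinj).symm.toMonoidHom.comp
    (u0.codRestrict ι.range hrange)), hpos, fun x => ?_⟩
  have h1 : u0 (ι x) = ι (x ^ h) := by
    rw [hu0, map_pow]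
    have : s (ι x) = 1 := by
      change ∏ᶠ v : HeightOneSpectrum R,
        (π v) ^ (-(Multiplicative.toAdd (v.valuationOfNeZero (ι x)))) = 1
      have h2 : ∀ v : HeightOneSpectrum R,
          (π v) ^ (-(Multiplicative.toAdd (v.valuationOfNeZero (ι x)))) = 1 := by
        intro v
        have h3 : v.valuationOfNeZero (ι x) = 1 := valuation_of_unit_eq v x
        rw [h3, toAdd_one, neg_zero, zpow_zero]
      simp_rw [h2]
      exact finprod_one
    rw [this, div_one]
  have h2 : (MonoidHom.ofInjective hιinj).symm ((u0.codRestrict ι.range hrange) (ι x)) = x ^ h := by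
    rw [MulEquiv.symm_apply_eq]
    apply Subtype.ext
    exact h1
  change φ ((MonoidHom.ofInjective hιinj).symm ((u0.codRestrict ι.range hrange) (ι x))) = _
  rw [h2, map_pow]

end dedekind

section number

open NumberField

/-- A nonzero element of a number field which is not a root of unity is seen by some homomorphism
to the integers. -/
theorem exists_hom_numberField {K : Type*} [Field K] [NumberField K] (w : Kˣ)
    (hw : ∀ N : ℕ, 0 < N → w ^ N ≠ 1) : ∃ f : Kˣ →* Multiplicative ℤ, f w ≠ 1 := by
  classical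
  by_cases hv : ∃ v : HeightOneSpectrum (𝓞 K), v.valuationOfNeZero w ≠ 1
  · obtain ⟨v, hv⟩ := hv
    exact ⟨v.valuationOfNeZero, hv⟩
  push Not at hv
  obtain ⟨a, ha⟩ := mem_integers_of_valuation_le_one (R := 𝓞 K) K ((w : Kˣ) : K) (fun v =>
    ((valNZ_eq_one_iff v _).mp (hv v)).le)
  obtain ⟨b, hb⟩ := mem_integers_of_valuation_le_one (R := 𝓞 K) K ((w⁻¹ : Kˣ) : K) (fun v => by
    refine ((valNZ_eq_one_iff v _).mp ?_).le
    rw [map_inv, hv, inv_one])
  have hab : a * b = 1 := by
    apply IsFractionRing.injective (𝓞 K) K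
    rw [map_mul, ha, hb, map_one, ← Units.val_mul, mul_inv_cancel, Units.val_one]
  set x : (𝓞 K)ˣ := ⟨a, b, hab, by rw [mul_comm]; exact hab⟩ with hx
  have hxw : Units.map (algebraMap (𝓞 K) K).toMonoidHom x = w := Units.ext ha
  have hnt : x ∉ Units.torsion K := by
    intro hmem
    obtain ⟨N, hN, h1⟩ := isOfFinOrder_iff_pow_eq_one.mp ((CommGroup.mem_torsion _).mp hmem)
    apply hw N hN
    rw [← hxw, ← map_pow, h1, map_one]
  have hne : (Additive.ofMul (x : (𝓞 K)ˣ ⧸ (Units.torsion K))) ≠ 0 := by
    intro h0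
    apply hnt
    rw [← QuotientGroup.eq_one_iff]
    exact h0
  have hrepr : (Units.basisModTorsion K).repr
      (Additive.ofMul (x : (𝓞 K)ˣ ⧸ (Units.torsion K))) ≠ 0 := by
    rwa [Ne, EmbeddingLike.map_eq_zero_iff]
  obtain ⟨i, hi⟩ := Finsupp.ne_iff.mp hrepr
  let φ : (𝓞 K)ˣ →* Multiplicative ℤ :=
    { toFun := fun y => Multiplicative.ofAdd ((Units.basisModTorsion K).repr
        (Additive.ofMul (y : (𝓞 K)ˣ ⧸ (Units.torsion K))) i)
      map_one' := by simp
      map_mul' := fun y z => by
        rw [QuotientGroup.mk_mul, ofMul_mul, map_add, Finsupp.add_apply, ofAdd_add] }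
  obtain ⟨h, u, hh, hu⟩ := exists_extension (K := K) φ
  refine ⟨u, ?_⟩
  rw [← hxw, hu]
  intro h1
  have h2 := congrArg Multiplicative.toAdd h1
  rw [toAdd_pow, toAdd_one, smul_eq_zero] at h2
  rcases h2 with h2 | h2
  · exact hh.ne' h2
  · exact hi h2

end number

end Pool.Agent.Lib.MP_8f66f0_al_FinQ
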