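import Mathlib

/-! Homomorphisms from unit groups of finitely generated field extensions. -/

set_option autoImplicit false
set_option linter.unusedSectionVars false

namespace Pool.Agent.Lib.MP_8f66f0_al_FinQ

open IntermediateField

section ext

variable {k Ω : Type*} [Field k] [Field Ω] [Algebra k Ω]

open Polynomial in
/-- The leading coefficient as a homomorphism from rational functions. -/
noncomputable def lcHom (K : Type*) [Field K] : RatFunc K →*₀ K :=
  RatFunc.liftMonoidWithZeroHom
    ({ toFun := Polynomial.leadingCoeff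
       map_zero' := Polynomial.leadingCoeff_zero
       map_one' := Polynomial.leadingCoeff_one
       map_mul' := Polynomial.leadingCoeff_mul } : K[X] →*₀ K)
    (fun p hp => by
      rw [Submonoid.mem_comap, mem_nonZeroDivisors_iff_ne_zero]
      rw [mem_nonZeroDivisors_iff_ne_zero] at hp
      exact Polynomial.leadingCoeff_ne_zero.mpr hp)

lemma lcHom_algebraMap {K : Type*} [Field K] (a : K) : lcHom K (algebraMap K (RatFunc K) a) = a := by
  rw [lcHom, RatFunc.liftMonoidWithZeroHom_apply, RatFunc.algebraMap_eq_C]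
  simp

/-- A simple extension has a norm like homomorphism. -/
lemma exists_unit_norm_simple (x : Ω) : ∃ (n : ℕ) (N : (k⟮x⟯)ˣ →* kˣ), 0 < n ∧
    ∀ y : kˣ, N (Units.map (algebraMap k k⟮x⟯).toMonoidHom y) = y ^ n := by
  by_cases hx : IsIntegral k x
  · have : FiniteDimensional k k⟮x⟯ := adjoin.finiteDimensional hx
    refine ⟨Module.finrank k k⟮x⟯, Units.map (Algebra.norm k), Module.finrank_pos, fun y => ?_⟩
    apply Units.ext
    exact Algebra.norm_algebraMap (y : k)
  · have htr : Transcendental k x := fun h => hx h.isIntegral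
    set e := RatFunc.algEquivOfTranscendental x htr with he
    refine ⟨1, Units.map ((lcHom k).toMonoidHom.comp e.symm.toRingEquiv.toRingHom.toMonoidHom),
      one_pos, fun y => ?_⟩
    apply Units.ext
    rw [pow_one]
    change lcHom k (e.symm (algebraMap k k⟮x⟯ (y : k))) = y
    rw [AlgEquiv.commutes, lcHom_algebraMap]

/-- A finitely generated extension has a norm like homomorphism. -/
theorem exists_unit_norm (S : Finset Ω) : ∃ (n : ℕ) (N : (adjoin k (S : Set Ω))ˣ →* kˣ), 0 < n ∧
    ∀ y : kˣ, N (Units.map (algebraMap k (adjoin k (S : Set Ω))).toMonoidHom y) = y ^ n := by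
  refine induction_on_adjoin_finset S
    (fun K => ∃ (n : ℕ) (N : Kˣ →* kˣ), 0 < n ∧
      ∀ y : kˣ, N (Units.map (algebraMap k K).toMonoidHom y) = y ^ n) ?_ ?_
  · refine ⟨1, Units.map (botEquiv k Ω).toRingEquiv.toRingHom.toMonoidHom, one_pos, fun y => ?_⟩
    apply Units.ext
    rw [pow_one]
    exact (botEquiv k Ω).commutes (y : k)
  · rintro K x _ ⟨n, N, hn, hN⟩
    obtain ⟨n', N', hn', hN'⟩ := exists_unit_norm_simple (k := K) x
    refine ⟨n * n', N.comp N', Nat.mul_pos hn hn', fun y => ?_⟩
    have h1 : (Units.map (algebraMap k (K⟮x⟯.restrictScalars k)).toMonoidHom y :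
        (K⟮x⟯.restrictScalars k)ˣ) =
        (Units.map (algebraMap K K⟮x⟯).toMonoidHom
          (Units.map (algebraMap k K).toMonoidHom y) : (K⟮x⟯)ˣ) := by
      apply Units.ext
      rfl
    rw [h1]
    change N (N' _) = _
    rw [hN', map_pow, hN, pow_mul]

/-- A transcendental element is seen by a homomorphism to the integers. -/
theorem exists_hom_of_transcendental (x : Ω) (hx : Transcendental k x) :
    ∃ (f : (k⟮x⟯)ˣ →* Multiplicative ℤ) (u : (k⟮x⟯)ˣ), (u : k⟮x⟯) = AdjoinSimple.gen k x ∧
      f u ≠ 1 := by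
  set e := RatFunc.algEquivOfTranscendental x hx with he
  have hgen : AdjoinSimple.gen k x ≠ 0 := by
    intro h
    apply hx
    have : x = 0 := by
      have := congrArg (algebraMap k⟮x⟯ Ω) h
      rwa [AdjoinSimple.algebraMap_gen, map_zero] at this
    rw [this]
    exact isAlgebraic_zero
  let f : (k⟮x⟯)ˣ →* Multiplicative ℤ :=
    { toFun := fun u => Multiplicative.ofAdd (RatFunc.intDegree (e.symm (u : k⟮x⟯)))
      map_one' := by simp
      map_mul' := fun u v => by
        have h1 : e.symm (u : k⟮x⟯) ≠ 0 := by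
          rw [Ne, EmbeddingLike.map_eq_zero_iff]; exact u.ne_zero
        have h2 : e.symm (v : k⟮x⟯) ≠ 0 := by
          rw [Ne, EmbeddingLike.map_eq_zero_iff]; exact v.ne_zero
        rw [Units.val_mul, map_mul, RatFunc.intDegree_mul h1 h2, ofAdd_add] }
  refine ⟨f, Units.mk0 _ hgen, rfl, ?_⟩
  change Multiplicative.ofAdd (RatFunc.intDegree (e.symm (AdjoinSimple.gen k x))) ≠ 1
  rw [RatFunc.algEquivOfTranscendental_symm_gen, RatFunc.intDegree_X]
  decide

end ext

end Pool.Agent.Lib.MP_8f66f0_al_FinQ
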