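import Mathlib
import Pool.Agent.Lib.MP_8f66f0_al_FinQ.EigenHom
import Pool.Agent.Lib.MP_8f66f0_al_FinQ.NumUnit
import Pool.Agent.Lib.MP_8f66f0_al_FinQ.Trace
import Pool.Agent.Lib.MP_8f66f0_al_FinQ.UnitHom

/-! Detected conjugacy classes of linear groups. -/

set_option autoImplicit false
set_option linter.unusedSectionVars false

namespace Pool.Agent.Lib.MP_8f66f0_al_FinQ

open Pool.Agent.Lib.MP_8f66f0_al_Dennis IntermediateField

section cocycle

variable {G : Type*} [Group G]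

lemma mem_centralizer_self (c : G) : c ∈ Subgroup.centralizer ({c} : Set G) :=
  Subgroup.mem_centralizer_singleton_iff.mpr rfl

/-- A homomorphism from the centralizer gives a class cocycle. -/
theorem exists_cocycle_of_hom {V : Type*} [AddCommGroup V] (c : G)
    (lam : Subgroup.centralizer ({c} : Set G) →* Multiplicative V) :
    ∃ δ : G → G → V, IsClassCocycle c δ ∧
      δ c c = Multiplicative.toAdd (lam ⟨c, mem_centralizer_self c⟩) := by
  classical
  have hex : ∀ x : G, ∃ t : G, IsConj c x → t * c * t⁻¹ = x := by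
    intro x
    by_cases h : IsConj c x
    · obtain ⟨t, ht⟩ := isConj_iff.mp h
      exact ⟨t, fun _ => ht⟩
    · exact ⟨1, fun h' => absurd h' h⟩
  choose t ht using hex
  have hmem : ∀ g x : G, IsConj c x →
      (t (g * x * g⁻¹))⁻¹ * g * t x ∈ Subgroup.centralizer ({c} : Set G) := by
    intro g x hx
    have hx' : IsConj c (g * x * g⁻¹) := hx.trans (isConj_iff.mpr ⟨g, rfl⟩)
    have h1 := ht x hx
    have h2 := ht _ hx'
    rw [Subgroup.mem_centralizer_singleton_iff]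
    set a := t x
    set b := t (g * x * g⁻¹)
    have h3 : c = b⁻¹ * (g * x * g⁻¹) * b := by rw [← h2]; group
    have h4 : c = a⁻¹ * x * a := by rw [← h1]; group
    calc b⁻¹ * g * a * c = b⁻¹ * g * a * (a⁻¹ * x * a) := by rw [← h4]
      _ = b⁻¹ * (g * x * g⁻¹) * b * (b⁻¹ * g * a) := by group
      _ = c * (b⁻¹ * g * a) := by rw [← h3]
  let δ : G → G → V := fun g x =>
    if h : IsConj c x then Multiplicative.toAdd (lam ⟨_, hmem g x h⟩) else 0
  refine ⟨δ, ?_, ?_⟩
  · intro g h x hx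
    have hx' : IsConj c (h * x * h⁻¹) := hx.trans (isConj_iff.mpr ⟨h, rfl⟩)
    have e1 : δ (g * h) x = Multiplicative.toAdd (lam ⟨_, hmem (g * h) x hx⟩) := dif_pos hx
    have e2 : δ h x = Multiplicative.toAdd (lam ⟨_, hmem h x hx⟩) := dif_pos hx
    have e3 : δ g (h * x * h⁻¹) = Multiplicative.toAdd (lam ⟨_, hmem g _ hx'⟩) := dif_pos hx'
    rw [e1, e2, e3, ← toAdd_mul, ← map_mul]
    congr 2
    apply Subtype.ext
    change (t (g * h * x * (g * h)⁻¹))⁻¹ * (g * h) * t x =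
      ((t (g * (h * x * h⁻¹) * g⁻¹))⁻¹ * g * t (h * x * h⁻¹)) * ((t (h * x * h⁻¹))⁻¹ * h * t x)
    have e4 : g * h * x * (g * h)⁻¹ = g * (h * x * h⁻¹) * g⁻¹ := by group
    rw [e4]
    group
  · have hc : IsConj c c := IsConj.refl c
    have e1 : δ c c = Multiplicative.toAdd (lam ⟨_, hmem c c hc⟩) := dif_pos hc
    rw [e1]
    congr 2
    apply Subtype.ext
    change (t (c * c * c⁻¹))⁻¹ * c * t c = c
    have h1 := ht c hc
    rw [mul_inv_cancel_right]
    calc (t c)⁻¹ * c * t c = (t c)⁻¹ * (t c * c * (t c)⁻¹) * t c := by rw [h1]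
      _ = c := by group

theorem detected_of_hom {c : G} (lam : Subgroup.centralizer ({c} : Set G) →* Multiplicative ℤ)
    (h : lam ⟨c, mem_centralizer_self c⟩ ≠ 1) : Detected c := by
  obtain ⟨δ, h1, h2⟩ := exists_cocycle_of_hom c lam
  refine ⟨δ, h1, ?_⟩
  rw [h2]
  intro h3
  exact h (toAdd_eq_zero.mp h3)

end cocycle

section unipotent

variable {Ω : Type*} [Field Ω] [IsAlgClosed Ω] {m : ℕ}

/-- If all eigenvalues of a matrix are roots of unity then some power is unipotent. -/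
lemma exists_pow_unipotent (M : Matrix (Fin m) (Fin m) Ω)
    (h : ∀ μ, M.charpoly.IsRoot μ → ∃ N : ℕ, 0 < N ∧ μ ^ N = 1) :
    ∃ N : ℕ, 0 < N ∧ (M ^ N - 1) ^ m = 0 := by
  classical
  have hne : M.charpoly ≠ 0 := (Matrix.charpoly_monic M).ne_zero
  have hex : ∀ μ : Ω, ∃ N : ℕ, 0 < N ∧ (M.charpoly.IsRoot μ → μ ^ N = 1) := by
    intro μ
    by_cases hμ : M.charpoly.IsRoot μ
    · obtain ⟨N, h1, h2⟩ := h μ hμ
      exact ⟨N, h1, fun _ => h2⟩
    · exact ⟨1, one_pos, fun h' => absurd h' hμ⟩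
  choose N hN0 hN using hex
  set K := ∏ μ ∈ M.charpoly.roots.toFinset, N μ with hK
  have hK0 : 0 < K := Finset.prod_pos fun μ _ => hN0 μ
  have hKμ : ∀ μ ∈ M.charpoly.roots, μ ^ K = 1 := by
    intro μ hμ
    obtain ⟨d, hd⟩ := Finset.dvd_prod_of_mem N (Multiset.mem_toFinset.mpr hμ)
    rw [hK, hd, pow_mul, hN μ ((Polynomial.mem_roots hne).mp hμ), one_pow]
  refine ⟨K, hK0, ?_⟩
  have hsplit : M.charpoly = (M.charpoly.roots.map fun a => Polynomial.X - Polynomial.C a).prod :=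
    (IsAlgClosed.splits M.charpoly).eq_prod_roots_of_monic (Matrix.charpoly_monic M)
  have hcard : M.charpoly.roots.card = m := by
    have h1 := (IsAlgClosed.splits M.charpoly).natDegree_eq_card_roots
    rw [← h1, Matrix.charpoly_natDegree_eq_dim, Fintype.card_fin]
  have hdvd : M.charpoly ∣ (Polynomial.X ^ K - 1 : Polynomial Ω) ^ m := by
    have h2 : (Polynomial.X ^ K - 1 : Polynomial Ω) ^ m =
        (M.charpoly.roots.map fun _ => (Polynomial.X ^ K - 1 : Polynomial Ω)).prod := by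
      rw [Multiset.map_const', Multiset.prod_replicate, hcard]
    rw [h2]
    conv_lhs => rw [hsplit]
    apply Multiset.prod_dvd_prod_of_dvd
    intro a ha
    rw [Polynomial.dvd_iff_isRoot]
    simp [hKμ a ha]
  obtain ⟨q, hq⟩ := hdvd
  have h3 := congrArg (Polynomial.aeval M) hq
  rw [map_mul, Matrix.aeval_self_charpoly, zero_mul] at h3
  simpa using h3

end unipotent

section main

variable {G : Type*} [Group G] [Group.FG G] {m : ℕ}

omit [Group G] [Group.FG G] in
lemma isRoot_of_map {L Ω : Type*} [Field L] [Field Ω] (ι : L →+* Ω)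
    (M : Matrix.GeneralLinearGroup (Fin m) L) (μ : L)
    (h : (Matrix.GeneralLinearGroup.map ι M : Matrix (Fin m) (Fin m) Ω).charpoly.IsRoot (ι μ)) :
    (M : Matrix (Fin m) (Fin m) L).charpoly.IsRoot μ := by
  have h1 : (Matrix.GeneralLinearGroup.map ι M : Matrix (Fin m) (Fin m) Ω) =
      (M : Matrix (Fin m) (Fin m) L).map ι := rfl
  rw [h1, Matrix.charpoly_map, Polynomial.IsRoot.def, Polynomial.eval_map,
    Polynomial.eval₂_at_apply] at h
  exact ι.injective (h.trans (map_zero ι).symm)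

/-- An eigenvalue which is seen by a homomorphism to the integers gives a homomorphism from the
centralizer to the integers. -/
theorem exists_lam_of_eigenvalue {Ω : Type*} [Field Ω]
    (ρ : G →* Matrix.GeneralLinearGroup (Fin m) Ω) (c : G) {k₀ : Type*} [Field k₀] [Algebra k₀ Ω]
    (μ : Ω) (hμ : (ρ c : Matrix (Fin m) (Fin m) Ω).charpoly.IsRoot μ)
    (f : (k₀⟮μ⟯)ˣ →* Multiplicative ℤ) (u : (k₀⟮μ⟯)ˣ)
    (hu : (u : k₀⟮μ⟯) = AdjoinSimple.gen k₀ μ) (hf : f u ≠ 1) :
    ∃ lam : Subgroup.centralizer ({c} : Set G) →* Multiplicative ℤ,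
      lam ⟨c, mem_centralizer_self c⟩ ≠ 1 := by
  classical
  obtain ⟨T, ρ', hρ'⟩ := exists_lift_field (k := k₀⟮μ⟯) ρ
  have hμL' : algebraMap (adjoin k₀⟮μ⟯ (T : Set Ω)) Ω
      (algebraMap k₀⟮μ⟯ (adjoin k₀⟮μ⟯ (T : Set Ω)) (AdjoinSimple.gen k₀ μ)) = μ := by
    rw [← IsScalarTower.algebraMap_apply]
    exact AdjoinSimple.algebraMap_gen k₀ μ
  have hroot := isRoot_of_map (algebraMap (adjoin k₀⟮μ⟯ (T : Set Ω)) Ω) (ρ' c)
    (algebraMap k₀⟮μ⟯ (adjoin k₀⟮μ⟯ (T : Set Ω)) (AdjoinSimple.gen k₀ μ)) (by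
      rw [hρ', hμL']; exact hμ)
  obtain ⟨D, r, hr, hD⟩ := exists_det_hom ρ' c _ hroot
  obtain ⟨n, N, hn, hN⟩ := exists_unit_norm (k := k₀⟮μ⟯) T
  refine ⟨f.comp (N.comp D.toHomUnits), ?_⟩
  have h1 : D.toHomUnits ⟨c, mem_centralizer_self c⟩ =
      (Units.map (algebraMap k₀⟮μ⟯ (adjoin k₀⟮μ⟯ (T : Set Ω))).toMonoidHom u) ^ r := by
    apply Units.ext
    rw [MonoidHom.coe_toHomUnits, Units.val_pow_eq_pow_val, Units.coe_map, hu]
    exact hD
  rw [MonoidHom.comp_apply, MonoidHom.comp_apply, h1, map_pow, hN, map_pow, map_pow, ← pow_mul]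
  intro h2
  have h3 := congrArg Multiplicative.toAdd h2
  rw [toAdd_pow, toAdd_one, smul_eq_zero] at h3
  rcases h3 with h3 | h3
  · exact absurd h3 (Nat.mul_pos hn hr).ne'
  · exact hf (toAdd_eq_zero.mp h3)

lemma charpoly_root_ne_zero {Ω : Type*} [Field Ω] (M : Matrix.GeneralLinearGroup (Fin m) Ω) {μ : Ω}
    (hμ : (M : Matrix (Fin m) (Fin m) Ω).charpoly.IsRoot μ) : μ ≠ 0 := by
  rintro rfl
  have h1 : (M : Matrix (Fin m) (Fin m) Ω).charpoly.coeff 0 = 0 := by
    rw [Polynomial.coeff_zero_eq_eval_zero]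
    exact hμ
  have h2 := Matrix.det_eq_sign_charpoly_coeff (M : Matrix (Fin m) (Fin m) Ω)
  rw [h1, mul_zero] at h2
  have h3 : IsUnit (M : Matrix (Fin m) (Fin m) Ω).det :=
    (Matrix.isUnit_iff_isUnit_det _).mp M.isUnit
  rw [h2] at h3
  exact not_isUnit_zero h3

lemma exists_pow_eq_one_of_algebraic {Ω : Type*} [Field Ω] (p : ℕ) [Fact p.Prime]
    [Algebra (ZMod p) Ω] {μ : Ω} (hμ : IsAlgebraic (ZMod p) μ) (h0 : μ ≠ 0) :
    ∃ N : ℕ, 0 < N ∧ μ ^ N = 1 := by
  have hfd : FiniteDimensional (ZMod p) (ZMod p)⟮μ⟯ := adjoin.finiteDimensional hμ.isIntegral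
  have hfin : Finite (ZMod p)⟮μ⟯ := Module.finite_of_finite (ZMod p)
  have hgen : AdjoinSimple.gen (ZMod p) μ ≠ 0 := by
    intro h
    apply h0
    have := congrArg (algebraMap (ZMod p)⟮μ⟯ Ω) h
    rwa [AdjoinSimple.algebraMap_gen, map_zero] at this
  have h1 := isOfFinOrder_of_finite (Units.mk0 _ hgen)
  obtain ⟨N, hN, h2⟩ := isOfFinOrder_iff_pow_eq_one.mp h1
  refine ⟨N, hN, ?_⟩
  have h3 := congrArg (fun u : (ZMod p)⟮μ⟯ˣ => algebraMap (ZMod p)⟮μ⟯ Ω u) h2
  simpa using h3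

/-- In a finitely generated torsion-free linear group without unipotent elements each nontrivial
element has an eigenvalue which is not a root of unity. -/
lemma exists_eigenvalue {Ω : Type*} [Field Ω] [IsAlgClosed Ω]
    (htf : ∀ g : G, ∀ n : ℕ, 0 < n → g ^ n = 1 → g = 1)
    (ρ : G →* Matrix.GeneralLinearGroup (Fin m) Ω)
    (hNU : ∀ g : G, ((ρ g : Matrix (Fin m) (Fin m) Ω) - 1) ^ m = 0 → g = 1) {c : G} (hc : c ≠ 1) :
    ∃ μ, (ρ c : Matrix (Fin m) (Fin m) Ω).charpoly.IsRoot μ ∧ ∀ N : ℕ, 0 < N → μ ^ N ≠ 1 := by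
  by_contra hcon
  push Not at hcon
  obtain ⟨N, hN, h1⟩ := exists_pow_unipotent (ρ c : Matrix (Fin m) (Fin m) Ω) hcon
  apply hc
  apply htf c N hN
  apply hNU
  rw [map_pow, Units.val_pow_eq_pow_val]
  exact h1

/-- An eigenvalue which is not a root of unity gives a homomorphism from the centralizer to the
integers. -/
theorem exists_lam_of_not_root {Ω : Type*} [Field Ω]
    (ρ : G →* Matrix.GeneralLinearGroup (Fin m) Ω) (c : G)
    {μ : Ω} (hμ : (ρ c : Matrix (Fin m) (Fin m) Ω).charpoly.IsRoot μ)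
    (hμ' : ∀ N : ℕ, 0 < N → μ ^ N ≠ 1) :
    ∃ lam : Subgroup.centralizer ({c} : Set G) →* Multiplicative ℤ,
      lam ⟨c, mem_centralizer_self c⟩ ≠ 1 := by
  have h0 := charpoly_root_ne_zero _ hμ
  obtain ⟨p, hcp⟩ := CharP.exists Ω
  rcases CharP.char_is_prime_or_zero Ω p with hp | hp
  · have : Fact p.Prime := ⟨hp⟩
    let _ : Algebra (ZMod p) Ω := ZMod.algebra Ω p
    have htr : Transcendental (ZMod p) μ := by
      intro halg
      obtain ⟨N, hN, h1⟩ := exists_pow_eq_one_of_algebraic p halg h0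
      exact hμ' N hN h1
    obtain ⟨f, u, hu, hf⟩ := exists_hom_of_transcendental μ htr
    exact exists_lam_of_eigenvalue ρ c μ hμ f u hu hf
  · subst hp
    have : CharZero Ω := CharP.charP_to_charZero Ω
    by_cases halg : IsAlgebraic ℚ μ
    · have hfd : FiniteDimensional ℚ ℚ⟮μ⟯ := adjoin.finiteDimensional halg.isIntegral
      have hnf : NumberField ℚ⟮μ⟯ := { to_charZero := inferInstance, to_finiteDimensional := hfd }
      have hgen : AdjoinSimple.gen ℚ μ ≠ 0 := by
        intro h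
        apply h0
        have := congrArg (algebraMap ℚ⟮μ⟯ Ω) h
        rwa [AdjoinSimple.algebraMap_gen, map_zero] at this
      obtain ⟨f, hf⟩ := exists_hom_numberField (Units.mk0 _ hgen) (by
        intro N hN h1
        apply hμ' N hN
        have h3 := congrArg (fun u : ℚ⟮μ⟯ˣ => algebraMap ℚ⟮μ⟯ Ω u) h1
        simpa using h3)
      exact exists_lam_of_eigenvalue ρ c μ hμ f (Units.mk0 _ hgen) rfl hf
    · obtain ⟨f, u, hu, hf⟩ := exists_hom_of_transcendental (k := ℚ) μ halg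
      exact exists_lam_of_eigenvalue ρ c μ hμ f u hu hf

/-- Torsion-free linear groups without unipotent elements. -/
theorem exists_lam_of_linear (htf : ∀ g : G, ∀ n : ℕ, 0 < n → g ^ n = 1 → g = 1)
    {F : Type*} [Field F] (ρ : G →* Matrix.GeneralLinearGroup (Fin m) F)
    (hNU : ∀ g : G, ((ρ g : Matrix (Fin m) (Fin m) F) - 1) ^ m = 0 → g = 1)
    {c : G} (hc : c ≠ 1) :
    ∃ lam : Subgroup.centralizer ({c} : Set G) →* Multiplicative ℤ,
      lam ⟨c, mem_centralizer_self c⟩ ≠ 1 := by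
  set Ω := AlgebraicClosure F
  set σ := (Matrix.GeneralLinearGroup.map (algebraMap F Ω)).comp ρ with hσ
  have hNU' : ∀ g : G, ((σ g : Matrix (Fin m) (Fin m) Ω) - 1) ^ m = 0 → g = 1 := by
    intro g hg
    apply hNU g
    have h1 : (σ g : Matrix (Fin m) (Fin m) Ω) =
      (algebraMap F Ω).mapMatrix (ρ g : Matrix (Fin m) (Fin m) F) := rfl
    rw [h1, ← map_one (algebraMap F Ω).mapMatrix, ← map_sub, ← map_pow] at hg
    ext i j
    apply (algebraMap F Ω).injective
    exact (congrFun (congrFun (congrArg (fun M : Matrix (Fin m) (Fin m) Ω => (M : _ → _ → Ω)) hg) i)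
      j).trans (map_zero (algebraMap F Ω)).symm
  obtain ⟨μ, hμ, hμ'⟩ := exists_eigenvalue htf σ hNU' hc
  exact exists_lam_of_not_root σ c hμ hμ'

/-- In a finitely generated torsion-free linear group without unipotent elements each nontrivial
class is detected. -/
theorem detected_of_linear (htf : ∀ g : G, ∀ n : ℕ, 0 < n → g ^ n = 1 → g = 1)
    {F : Type*} [Field F] (ρ : G →* Matrix.GeneralLinearGroup (Fin m) F)
    (hNU : ∀ g : G, ((ρ g : Matrix (Fin m) (Fin m) F) - 1) ^ m = 0 → g = 1)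
    {c : G} (hc : c ≠ 1) : Detected c := by
  obtain ⟨lam, h⟩ := exists_lam_of_linear htf ρ hNU hc
  exact detected_of_hom lam h

lemma unipotent_charP {Ω : Type*} [Field Ω] (p : ℕ) [hp : Fact p.Prime] [CharP Ω p]
    (M : Matrix (Fin m) (Fin m) Ω) (hM : (M - 1) ^ m = 0) : M ^ (p ^ m) = 1 := by
  rcases isEmpty_or_nonempty (Fin m) with h | h
  · exact Subsingleton.elim _ _
  have : CharP (Matrix (Fin m) (Fin m) Ω) p := inferInstance
  have h1 : (M - 1) ^ (p ^ m) = M ^ (p ^ m) - 1 ^ (p ^ m) :=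
    sub_pow_char_pow_of_commute _ _ (Commute.one_right M)
  have h2 : (M - 1) ^ (p ^ m) = 0 :=
    pow_eq_zero_of_le (Nat.lt_pow_self hp.out.one_lt).le hM
  rw [h2, one_pow] at h1
  exact (sub_eq_zero.mp h1.symm)

/-- Torsion-free linear groups in characteristic `p`. -/
theorem exists_lam_charP (htf : ∀ g : G, ∀ n : ℕ, 0 < n → g ^ n = 1 → g = 1)
    {F : Type*} [Field F] (p : ℕ) [hp : Fact p.Prime] [CharP F p]
    (ρ : G →* Matrix.GeneralLinearGroup (Fin m) F) (hρ : Function.Injective ρ)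
    {c : G} (hc : c ≠ 1) :
    ∃ lam : Subgroup.centralizer ({c} : Set G) →* Multiplicative ℤ,
      lam ⟨c, mem_centralizer_self c⟩ ≠ 1 := by
  set Ω := AlgebraicClosure F
  have hcp : CharP Ω p := charP_of_injective_algebraMap (algebraMap F Ω).injective p
  let _ : Algebra (ZMod p) Ω := ZMod.algebra Ω p
  set σ := (Matrix.GeneralLinearGroup.map (algebraMap F Ω)).comp ρ with hσ
  have hσinj : Function.Injective σ := by
    intro a b hab
    apply hρ
    apply Units.ext
    ext i j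
    apply (algebraMap F Ω).injective
    exact congrArg (fun u : Matrix.GeneralLinearGroup (Fin m) Ω =>
      (u : Matrix (Fin m) (Fin m) Ω) i j) hab
  have hNU : ∀ g : G, ((σ g : Matrix (Fin m) (Fin m) Ω) - 1) ^ m = 0 → g = 1 := by
    intro g hg
    apply htf g (p ^ m) (pow_pos hp.out.pos m)
    apply hσinj
    apply Units.ext
    rw [map_pow, map_one, Units.val_pow_eq_pow_val, unipotent_charP p _ hg, Units.val_one]
  obtain ⟨μ, hμ, hμ'⟩ := exists_eigenvalue htf σ hNU hc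
  have htr : Transcendental (ZMod p) μ := by
    intro halg
    obtain ⟨N, hN, h1⟩ := exists_pow_eq_one_of_algebraic p halg (charpoly_root_ne_zero _ hμ)
    exact hμ' N hN h1
  obtain ⟨f, u, hu, hf⟩ := exists_hom_of_transcendental μ htr
  exact exists_lam_of_eigenvalue σ c μ hμ f u hu hf

/-- In a finitely generated torsion-free linear group in characteristic `p` each nontrivial
class is detected. -/
theorem detected_of_linear_charP (htf : ∀ g : G, ∀ n : ℕ, 0 < n → g ^ n = 1 → g = 1)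
    {F : Type*} [Field F] (p : ℕ) [hp : Fact p.Prime] [CharP F p]
    (ρ : G →* Matrix.GeneralLinearGroup (Fin m) F) (hρ : Function.Injective ρ)
    {c : G} (hc : c ≠ 1) : Detected c := by
  obtain ⟨lam, h⟩ := exists_lam_charP htf p ρ hρ hc
  exact detected_of_hom lam h

end main

end Pool.Agent.Lib.MP_8f66f0_al_FinQ
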