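import Mathlib
import Pool.Agent.Lib.MP_8f66f0_al_FinQ.LemmaP
import Pool.Agent.Lib.MP_8f66f0_al_FinQ.Mon

/-! Determinants of monomial representations are roots of unity. -/

set_option autoImplicit false
set_option linter.unusedSectionVars false

namespace Pool.Agent.Lib.MP_8f66f0_al_FinQ

open Pool.Agent.Lib.MP_8f66f0_al_Dennis

section rings

variable {K : Type*} [Field K] [CharZero K]

/-- The ring generated by the `m`-th roots of unity. -/
noncomputable def rootRing (K : Type*) [Field K] (m : ℕ) : Subalgebra ℤ K :=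
  Algebra.adjoin ℤ {x : K | x ^ m = 1}

lemma finite_roots {m : ℕ} (hm : 0 < m) : {x : K | x ^ m = 1}.Finite := by
  classical
  refine (Polynomial.nthRootsFinset m (1 : K)).finite_toSet.subset fun x hx => ?_
  rw [Finset.mem_coe, Polynomial.mem_nthRootsFinset hm]
  exact hx

lemma rootRing_noetherian {m : ℕ} (hm : 0 < m) : IsNoetherianRing (rootRing K m) := by
  have h1 : (rootRing K m).FG := ⟨(finite_roots hm).toFinset, by
    rw [Set.Finite.coe_toFinset]; rfl⟩
  have h2 : Algebra.FiniteType ℤ (rootRing K m) := (Subalgebra.fg_iff_finiteType _).mp h1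
  exact Algebra.FiniteType.isNoetherianRing ℤ _

lemma mem_rootRing {m : ℕ} {x : K} (hx : x ^ m = 1) : x ∈ rootRing K m :=
  Algebra.subset_adjoin hx

lemma rootRing_isIntegral {m : ℕ} (hm : 0 < m) (x : rootRing K m) : IsIntegral ℤ (x : K) := by
  have h1 : rootRing K m ≤ integralClosure ℤ K := by
    refine Algebra.adjoin_le fun x hx => ?_
    refine ⟨Polynomial.X ^ m - 1, Polynomial.monic_X_pow_sub_C 1 hm.ne', ?_⟩
    have : x ^ m = 1 := hx
    simp [this]
  exact h1 x.2

lemma not_isUnit_rootRing {m p : ℕ} (hm : 0 < m) (hp : p.Prime) :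
    ¬ IsUnit ((p : ℕ) : rootRing K m) := by
  intro hu
  obtain ⟨u, hu⟩ := hu.exists_right_inv
  have h1 : (p : K) * (u : K) = 1 := by
    have := congrArg (Subtype.val) hu
    simpa using this
  have hp0 : (p : K) ≠ 0 := by exact_mod_cast hp.ne_zero
  have h2 : (u : K) = algebraMap ℚ K (1 / (p : ℚ)) := by
    rw [map_div₀, map_one, map_natCast, eq_div_iff hp0, mul_comm, h1]
  have h3 : IsIntegral ℤ (algebraMap ℚ K (1 / (p : ℚ))) := by
    rw [← h2]; exact rootRing_isIntegral hm u
  have h4 : IsIntegral ℤ (1 / (p : ℚ)) :=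
    (isIntegral_algebraMap_iff (algebraMap ℚ K).injective).mp h3
  obtain ⟨n, hn⟩ := IsIntegrallyClosed.isIntegral_iff.mp h4
  have h5 : (n : ℚ) * p = 1 := by
    have hp1 : (p : ℚ) ≠ 0 := by exact_mod_cast hp.ne_zero
    have : (n : ℚ) = 1 / p := hn
    rw [this]; field_simp
  have h6 : n * (p : ℤ) = 1 := by exact_mod_cast h5
  have h7 : (p : ℤ) ∣ 1 := ⟨n, by rw [mul_comm]; exact h6.symm⟩
  have h8 : p ∣ 1 := by exact_mod_cast h7
  exact hp.one_lt.ne' (Nat.dvd_one.mp h8)

end rings

section cong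

variable {O : Type*} [CommRing O]

lemma sub_pow_mem_radical {x : O} {p a m' e : ℕ} (hp : p.Prime) (hx : x ^ (p ^ a * m') = 1)
    (he : e * p ^ a ≡ p ^ a [MOD p ^ a * m']) :
    x - x ^ e ∈ (Ideal.span {(p : O)}).radical := by
  refine ⟨p ^ a, ?_⟩
  have h1 : x ^ (p ^ a) = (x ^ e) ^ (p ^ a) := by
    rw [← pow_mul, pow_eq_pow_mod (p ^ a) hx, pow_eq_pow_mod (e * p ^ a) hx]
    rw [he]
  obtain ⟨r, hr⟩ := exists_add_pow_prime_pow_eq hp (x - x ^ e) (x ^ e) a
  rw [sub_add_cancel, ← h1] at hr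
  rw [Ideal.mem_span_singleton]
  refine ⟨-((x - x ^ e) * (x ^ e) * r), ?_⟩
  linear_combination -hr

end cong

section main

variable {Γ : Type*} [Group Γ]

lemma det_int_sq {n : ℕ} {A B : Matrix (Fin n) (Fin n) (MonoidAlgebra ℤ Γ)} (hAB : A * B = 1)
    {κ : Type*} [Fintype κ] [DecidableEq κ] (σ : Γ →* Matrix κ κ ℤ) {K : Type*} [CommRing K] :
    (mapRep (((Int.castRingHom K).mapMatrix : Matrix κ κ ℤ →+* Matrix κ κ K).toMonoidHom.comp σ)
      A).det ^ 2 = 1 := by
  rw [← mapRep_map]
  have h1 : ((mapRep σ A).map (Int.castRingHom K)).det = Int.castRingHom K (mapRep σ A).det :=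
    (RingHom.map_det (Int.castRingHom K) (mapRep σ A)).symm
  rw [h1, ← map_pow]
  rcases Int.isUnit_iff.mp (isUnit_det_mapRep σ hAB) with h | h
  · rw [h]; simp
  · rw [h]; simp

/-- Determinants of monomial representations are roots of unity. -/
theorem mon_root_of_unity (hsep : ∀ H : Subgroup Γ, H.FG → PowerSeparated H) {n : ℕ}
    {A B : Matrix (Fin n) (Fin n) (MonoidAlgebra ℤ Γ)} (hAB : A * B = 1) (hBA : B * A = 1)
    {Q : Type*} [Group Q] [Finite Q] (π : Γ →* Q)
    (hπ : ∀ c : Γ, c ≠ 1 → ¬ Detected c → π c = 1) {K : Type*} [Field K] [CharZero K]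
    {Ω : Type*} [MulAction Q Ω] [Fintype Ω] [DecidableEq Ω] (m : ℕ) (hm : 0 < m)
    {θ : Q → Ω → K} (hθ : IsMonCocycle θ) (hθm : ∀ g w, θ g w ^ m = 1) :
    ∃ N : ℕ, 0 < N ∧ (mapRep ((monRep hθ).comp π) A).det ^ N = 1 := by
  induction m using Nat.strong_induction_on generalizing θ with
  | _ m ih =>
  by_cases hm1 : m = 1
  · -- integer matrices
    subst hm1
    have h1 : IsMonCocycle (fun (_ : Q) (_ : Ω) => (1 : ℤ)) :=
      ⟨fun _ => rfl, fun _ _ _ => (mul_one 1).symm⟩
    refine ⟨2, two_pos, ?_⟩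
    have h2 : (monRep hθ).comp π =
        ((Int.castRingHom K).mapMatrix : Matrix Ω Ω ℤ →+* Matrix Ω Ω K).toMonoidHom.comp
          ((monRep h1).comp π) := by
      ext g w' w
      change (monRep hθ (π g)) w' w = ((monRep h1 (π g) w' w : ℤ) : K)
      rw [monRep_apply, monRep_apply]
      have h3 := hθm (π g) w
      rw [pow_one] at h3
      split_ifs
      · rw [h3, Int.cast_one]
      · rw [Int.cast_zero]
    rw [h2]
    exact det_int_sq hAB _
  · set p := m.minFac with hp
    have hpp : p.Prime := Nat.minFac_prime hm1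
    have : Fact p.Prime := ⟨hpp⟩
    obtain ⟨a, m', hpm', hmeq⟩ := Nat.exists_eq_pow_mul_and_not_dvd hm.ne' p hpp.ne_one
    have hcop : Nat.Coprime (p ^ a) m' :=
      Nat.Coprime.pow_left a ((Nat.Prime.coprime_iff_not_dvd hpp).mpr hpm')
    have ha : 0 < a := by
      rcases Nat.eq_zero_or_pos a with h0 | h0
      · exfalso
        apply hpm'
        have : m = m' := by rw [hmeq, h0, pow_zero, one_mul]
        rw [← this]
        exact Nat.minFac_dvd m
      · exact h0
    have hm'0 : 0 < m' := by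
      rcases Nat.eq_zero_or_pos m' with h0 | h0
      · rw [h0, mul_zero] at hmeq; omega
      · exact h0
    have hlt : m' < m := by
      rw [hmeq]
      have : 1 < p ^ a := Nat.one_lt_pow ha.ne' hpp.one_lt
      nlinarith
    obtain ⟨e, he0, he1⟩ := Nat.chineseRemainder hcop 0 1
    have hemod : e * p ^ a ≡ p ^ a [MOD p ^ a * m'] := by
      refine (Nat.modEq_and_modEq_iff_modEq_mul hcop).mp ⟨?_, ?_⟩
      · exact ((Nat.modEq_zero_iff_dvd.mpr (Dvd.intro_left e rfl)).trans
          (Nat.modEq_zero_iff_dvd.mpr dvd_rfl).symm)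
      · have := he1.mul_right (p ^ a)
        rwa [one_mul] at this
    have hedvd : p ^ a ∣ e := (Nat.modEq_zero_iff_dvd.mp he0)
    obtain ⟨N', hN'0, hN'⟩ := ih m' hlt hm'0 (hθ.pow e) (by
      intro g w
      obtain ⟨c, hc⟩ := hedvd
      rw [← pow_mul, hc]
      have : p ^ a * c * m' = m * c := by rw [hmeq]; ring
      rw [this, pow_mul, hθm, one_pow])
    -- the ring
    have hnoeth : IsNoetherianRing (rootRing K m) := rootRing_noetherian hm
    set θO : Q → Ω → rootRing K m := fun g w => ⟨θ g w, mem_rootRing (hθm g w)⟩ with hθO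
    have hcoc : IsMonCocycle θO :=
      ⟨fun w => Subtype.ext (hθ.one w), fun g h w => Subtype.ext (hθ.mul g h w)⟩
    obtain ⟨N, hN0, hN⟩ := lemmaP hsep hAB hBA π hπ (not_isUnit_rootRing (K := K) hm hpp)
      (monRep hcoc) (monRep (hcoc.pow e)) (by
        intro q w' w
        rw [monRep_apply, monRep_apply]
        split_ifs
        · refine sub_pow_mem_radical hpp ?_ hemod
          apply Subtype.ext
          change θ q w ^ (p ^ a * m') = 1
          rw [← hmeq, hθm]
        · rw [sub_zero]; exact Ideal.zero_mem _)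
    have hmap : ∀ {τ : Q → Ω → rootRing K m} (hτ : IsMonCocycle τ) {τK : Q → Ω → K}
        (hτK : IsMonCocycle τK), (∀ g w, (τ g w : K) = τK g w) →
        (mapRep ((monRep hτK).comp π) A).det =
          algebraMap (rootRing K m) K (mapRep ((monRep hτ).comp π) A).det := by
      intro τ hτ τK hτK hval
      rw [RingHom.map_det]
      change _ = ((mapRep ((monRep hτ).comp π) A).map (algebraMap (rootRing K m) K)).det
      rw [mapRep_map]
      congr 2
      ext g w' w
      change monRep hτK (π g) w' w = (monRep hτ (π g) w' w : K)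
      rw [monRep_apply, monRep_apply]
      split_ifs
      · rw [hval]
      · rfl
    refine ⟨N * N', Nat.mul_pos hN0 hN'0, ?_⟩
    rw [pow_mul, hmap hcoc hθ (fun _ _ => rfl), ← map_pow, hN, map_pow,
      ← hmap (hcoc.pow e) (hθ.pow e) (fun _ _ => rfl), ← pow_mul, mul_comm N N', pow_mul, hN',
      one_pow]

end main

end Pool.Agent.Lib.MP_8f66f0_al_FinQ
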