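import Mathlib
import Pool.Agent.Lib.MP_8f66f0_al_FinQ.Monomial

/-! Determinants of representations with finite image. -/

set_option autoImplicit false
set_option linter.unusedSectionVars false

namespace Pool.Agent.Lib.MP_8f66f0_al_FinQ

open Pool.Agent.Lib.MP_8f66f0_al_Dennis

section main

variable {Γ : Type*} [Group Γ]

/-- Determinants of representations of finite quotients are roots of unity. -/
theorem finite_quotient_root (hsep : ∀ H : Subgroup Γ, H.FG → PowerSeparated H) {n : ℕ}
    {A B : Matrix (Fin n) (Fin n) (MonoidAlgebra ℤ Γ)} (hAB : A * B = 1) (hBA : B * A = 1)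
    {Q : Type*} [Group Q] [Finite Q] (π : Γ →* Q)
    (hπ : ∀ c : Γ, c ≠ 1 → ¬ Detected c → π c = 1) {E : Type*} [Field E] [CharZero E]
    {κ : Type*} [Fintype κ] [DecidableEq κ] (β : Q →* Matrix κ κ E) :
    ∃ N : ℕ, 0 < N ∧ (mapRep (β.comp π) A).det ^ N = 1 := by
  classical
  set s := algebraMap E (AlgebraicClosure E) with hs
  have hinj : Function.Injective s := FaithfulSMul.algebraMap_injective E (AlgebraicClosure E)
  set βs : Q →* Matrix κ κ (AlgebraicClosure E) :=
    (s.mapMatrix : Matrix κ κ E →+* Matrix κ κ (AlgebraicClosure E)).toMonoidHom.comp β with hβs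
  obtain ⟨N, hN0, hN⟩ := artin_reduction π βs hAB (by
    intro C _ ψ hψ
    exact mon_root_of_unity hsep hAB hBA π hπ (Nat.card Q) Nat.card_pos
      (indCocycle_isMonCocycle C ψ) (fun g w => indCocycle_pow C ψ hψ g w))
  refine ⟨N, hN0, hinj ?_⟩
  rw [map_pow, map_one, ← hN]
  congr 1
  rw [RingHom.map_det]
  change ((mapRep (β.comp π) A).map s).det = _
  rw [mapRep_map]
  rfl

/-- Determinants of representations with finite image are roots of unity. -/
theorem finite_image_root (hsep : ∀ H : Subgroup Γ, H.FG → PowerSeparated H) {n : ℕ}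
    {A B : Matrix (Fin n) (Fin n) (MonoidAlgebra ℤ Γ)} (hAB : A * B = 1) (hBA : B * A = 1)
    {E : Type*} [Field E] [CharZero E] {k : ℕ} (ρ : Γ →* Matrix.GeneralLinearGroup (Fin k) E)
    (hfin : (Set.range ρ).Finite) (hρ : ∀ c : Γ, c ≠ 1 → ¬ Detected c → ρ c = 1) :
    ∃ N : ℕ, 0 < N ∧ (repMatrix ρ A).det ^ N = 1 := by
  have : Finite ρ.range := hfin
  obtain ⟨N, hN0, hN⟩ := finite_quotient_root hsep hAB hBA ρ.rangeRestrict (by
    intro c hc hd
    exact Subtype.ext (hρ c hc hd)) ((Units.coeHom _).comp ρ.range.subtype)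
  refine ⟨N, hN0, ?_⟩
  rw [repMatrix_eq_mapRep, ← hN]
  rfl

end main

end Pool.Agent.Lib.MP_8f66f0_al_FinQ
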